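import Mathlib
import Pool.Agent.H28.VAL

/-!
MP_b8729f, project LN, section V1 (helper12): a graph of maximum degree at most `d` in which every vertex of degree `d` has
a neighbour with no other neighbour of degree `d` has an edge colouring with `d` colours (Vizing's adjacency lemma).
-/

set_option autoImplicit false

namespace Pool.Agent.H12.LN

open Pool.Agent.H28

theorem crit {V : Type} [Finite V] {G : SimpleGraph V} {d : ℕ}
    (hdeg : ∀ v, (G.neighborSet v).ncard ≤ d)
    (hcr : ∀ x, (G.neighborSet x).ncard = d →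
      ∃ y, G.Adj x y ∧ ∀ z, G.Adj y z → (G.neighborSet z).ncard = d → z = x) : ECol G d := by
  by_contra hG
  obtain ⟨H, hHG, hH, hcrit⟩ := exists_critical hG
  have hle : ∀ v, (H.neighborSet v).ncard ≤ (G.neighborSet v).ncard := fun v =>
    Set.ncard_le_ncard (fun w hw => hHG hw) (Set.toFinite _)
  have hdegH : ∀ v, (H.neighborSet v).ncard ≤ d := fun v => (hle v).trans (hdeg v)
  have key : ∀ x y, H.Adj x y → ∃ z, H.Adj x z ∧ z ≠ y ∧ (H.neighborSet z).ncard = d := by
    intro x y hxy
    have h := val hdegH hxy hH (hcrit x y hxy)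
    have h1 := hdegH y
    have h2 : {z | H.Adj x z ∧ z ≠ y ∧ (H.neighborSet z).ncard = d}.Nonempty := by
      rw [Set.nonempty_iff_ne_empty]
      intro h0
      rw [h0, Set.ncard_empty] at h
      omega
    obtain ⟨z, hz⟩ := h2
    exact ⟨z, hz⟩
  have htop : ∀ z, (H.neighborSet z).ncard = d → (G.neighborSet z).ncard = d := fun z hz =>
    le_antisymm (hdeg z) (hz ▸ hle z)
  by_cases hE : ∃ x y, H.Adj x y
  · obtain ⟨a, b, hab⟩ := hE
    obtain ⟨x, -, -, hx⟩ := key a b hab
    obtain ⟨y, hy, hyz⟩ := hcr x (htop x hx)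
    have hHy : H.Adj x y := by
      have h1 : H.neighborSet x = G.neighborSet x :=
        Set.eq_of_subset_of_ncard_le (fun w hw => hHG hw) (by rw [hx, htop x hx]) (Set.toFinite _)
      have h2 : y ∈ H.neighborSet x := by rw [h1]; exact hy
      exact h2
    obtain ⟨z, hz, hzx, hzd⟩ := key y x hHy.symm
    exact hzx (hyz z (hHG hz) (htop z hzd))
  · push Not at hE
    exact hH ⟨fun _ => 0, fun u v h => absurd h (hE u v), fun u v w h => absurd h (hE u v)⟩

/-- Fournier's theorem, star form: every vertex of maximum degree is in `R` or `D`, no two vertices of `R` and no two vertices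
of `D` are adjacent, and every vertex of `R` has at most one neighbour in `D`. -/
theorem four_star {V : Type} [Finite V] {G : SimpleGraph V} {d : ℕ}
    (hdeg : ∀ v, (G.neighborSet v).ncard ≤ d) (R D : V → Prop)
    (hM : ∀ v, (G.neighborSet v).ncard = d → R v ∨ D v)
    (hR : ∀ u v, G.Adj u v → R u → ¬ R v) (hD : ∀ u v, G.Adj u v → D u → ¬ D v)
    (hRD : ∀ u v w, G.Adj u v → G.Adj u w → R u → D v → D w → v = w) : ECol G d := by
  by_contra hG
  obtain ⟨H, hHG, hH, hcrit⟩ := exists_critical hG
  have hle : ∀ v, (H.neighborSet v).ncard ≤ (G.neighborSet v).ncard := fun v =>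
    Set.ncard_le_ncard (fun w hw => hHG hw) (Set.toFinite _)
  have hdegH : ∀ v, (H.neighborSet v).ncard ≤ d := fun v => (hle v).trans (hdeg v)
  have key : ∀ x y, H.Adj x y → ∃ z, H.Adj x z ∧ z ≠ y ∧ (H.neighborSet z).ncard = d := by
    intro x y hxy
    have h := val hdegH hxy hH (hcrit x y hxy)
    have h1 := hdegH y
    have h2 : {z | H.Adj x z ∧ z ≠ y ∧ (H.neighborSet z).ncard = d}.Nonempty := by
      rw [Set.nonempty_iff_ne_empty]
      intro h0
      rw [h0, Set.ncard_empty] at h
      omega
    obtain ⟨z, hz⟩ := h2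
    exact ⟨z, hz⟩
  have htop : ∀ z, (H.neighborSet z).ncard = d → R z ∨ D z := fun z hz =>
    hM z (le_antisymm (hdeg z) (hz ▸ hle z))
  -- no vertex of `R` with an edge
  have noR : ∀ x y, H.Adj x y → R x → False := by
    intro x y hxy hx
    obtain ⟨z, hz, -, hzd⟩ := key x y hxy
    obtain ⟨z', hz', hne, hzd'⟩ := key x z hz
    have h1 : D z := (htop z hzd).resolve_left (hR x z (hHG hz) hx)
    have h2 : D z' := (htop z' hzd').resolve_left (hR x z' (hHG hz') hx)
    exact hne (hRD x z' z (hHG hz') (hHG hz) hx h2 h1)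
  by_cases hE : ∃ x y, H.Adj x y
  · obtain ⟨a, b, hab⟩ := hE
    obtain ⟨x, hx, -, hxd⟩ := key a b hab
    rcases htop x hxd with h | h
    · exact noR x a hx.symm h
    · obtain ⟨z, hz, -, hzd⟩ := key x a hx.symm
      have h1 : R z := (htop z hzd).resolve_right (hD x z (hHG hz) h)
      exact noR z x hz.symm h1
  · push Not at hE
    exact hH ⟨fun _ => 0, fun u v h => absurd h (hE u v), fun u v w h => absurd h (hE u v)⟩

end Pool.Agent.H12.LN
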