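import Mathlib
import Pool.Agent.H71.DN.Defs
import Pool.Agent.H12.LN.V1
import Pool.Agent.H70.HY.Defs

/-!
MP_b8729f, project LN, section V2 (helper12): the last labels. Variant of `Pool/Agent/H71/DX/Fn2.lean`: edge-disjoint
matchings `mm ℓ`, `ℓ < L`, which avoid the windows; the last `Δ + 2 p - L` labels are given by an edge colouring of the rest,
which exists by `crit`.
-/

set_option autoImplicit false

namespace Pool.Agent.H12.LN

open Finset Classical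
open Pool.Agent.H71.DN

theorem final3 {V : Type} [Fintype V] (G : SimpleGraph V) (Δ p k' L : ℕ) (hp : 1 ≤ p)
    (hL : k' + p - 1 ≤ L) (hL2 : L + 1 ≤ Δ + 2 * p) (c : V → ℕ)
    (hc : ∀ v, c v < k') (hprop : ∀ u v, G.Adj u v → c u ≠ c v)
    (mm : ℕ → V → V) (hinv : ∀ ℓ < L, Inv (mm ℓ))
    (hadj : ∀ ℓ < L, ∀ v, mm ℓ v ≠ v → G.Adj v (mm ℓ v))
    (hdis : ∀ ℓ < L, ∀ ℓ' < L, ℓ ≠ ℓ' → ∀ v, mm ℓ v ≠ v → mm ℓ v ≠ mm ℓ' v)
    (hfix : ∀ ℓ < L, ∀ v, c v < ℓ + p → ℓ < c v + p → mm ℓ v = v)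
    (hd : ∀ v, dg G v + ((range L).filter fun ℓ => mm ℓ v = v).card ≤ Δ + 2 * p)
    (hcr : ∀ x, dg G x + ((range L).filter fun ℓ => mm ℓ x = x).card = Δ + 2 * p →
      ∃ y, G.Adj x y ∧ (∀ ℓ < L, mm ℓ x ≠ y) ∧ ∀ z, G.Adj y z → (∀ ℓ < L, mm ℓ y ≠ z) →
        dg G z + ((range L).filter fun ℓ => mm ℓ z = z).card = Δ + 2 * p → z = x) :
    H70.HY.HYLab G Δ p := by
  obtain ⟨d, hd'⟩ : ∃ d, d = Δ + 2 * p - L := ⟨_, rfl⟩
  have hinv' : ∀ ℓ < L, ∀ u v, mm ℓ u = v → mm ℓ v = u := by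
    intro ℓ hℓ u v h
    rw [← h]
    exact hinv ℓ hℓ u
  obtain ⟨G', hG'⟩ : ∃ G' : SimpleGraph V, ∀ u v, G'.Adj u v ↔
      G.Adj u v ∧ ∀ ℓ < L, mm ℓ u ≠ v :=
    ⟨{ Adj := fun u v => G.Adj u v ∧ ∀ ℓ < L, mm ℓ u ≠ v
       symm := ⟨fun u v h => ⟨h.1.symm, fun ℓ hℓ h' => h.2 ℓ hℓ (hinv' ℓ hℓ v u h')⟩⟩
       loopless := ⟨fun u h => h.1.ne rfl⟩ }, fun _ _ => Iff.rfl⟩
  have hdg : ∀ v, (G'.neighborSet v).ncard = dg G' v := by
    intro v
    unfold dg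
    rw [← Set.ncard_coe_finset]
    congr 1
    ext w
    simp [SimpleGraph.mem_neighborSet]
  have hsum : ∀ v, dg G' v + L ≤ dg G v + ((range L).filter fun ℓ => mm ℓ v = v).card := by
    intro v
    -- the neighbours `mm ℓ v`
    have h2 : ((range L).filter fun ℓ => mm ℓ v ≠ v).card + dg G' v ≤ dg G v := by
      have h3 : (((range L).filter fun ℓ => mm ℓ v ≠ v).image fun ℓ => mm ℓ v).card =
          ((range L).filter fun ℓ => mm ℓ v ≠ v).card := by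
        refine Finset.card_image_of_injOn ?_
        intro a ha b hb hab
        simp only [Finset.coe_filter, Finset.mem_range, Set.mem_ofPred_eq] at ha hb
        by_contra hne
        exact hdis a ha.1 b hb.1 hne v ha.2 hab
      rw [← h3]
      unfold dg
      rw [← Finset.card_union_of_disjoint]
      · refine Finset.card_le_card fun w hw => ?_
        rw [Finset.mem_union] at hw
        rw [Finset.mem_filter]
        refine ⟨Finset.mem_univ _, ?_⟩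
        rcases hw with hw | hw
        · obtain ⟨ℓ, hℓ, rfl⟩ := Finset.mem_image.1 hw
          rw [Finset.mem_filter, Finset.mem_range] at hℓ
          exact hadj ℓ hℓ.1 v hℓ.2
        · exact ((hG' v w).1 (Finset.mem_filter.1 hw).2).1
      · rw [Finset.disjoint_left]
        intro w hw hw'
        obtain ⟨ℓ, hℓ, rfl⟩ := Finset.mem_image.1 hw
        rw [Finset.mem_filter, Finset.mem_range] at hℓ
        exact ((hG' v _).1 (Finset.mem_filter.1 hw').2).2 ℓ hℓ.1 rfl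
    have h4 : ((range L).filter fun ℓ => mm ℓ v = v).card +
        ((range L).filter fun ℓ => mm ℓ v ≠ v).card = L := by
      rw [Finset.card_filter_add_card_filter_not, Finset.card_range]
    omega
  have hdeg : ∀ v, (G'.neighborSet v).ncard ≤ d := by
    intro v
    rw [hdg]
    have h1 := hsum v
    have h2 := hd v
    omega
  have hmax : ∀ v, (G'.neighborSet v).ncard = d →
      dg G v + ((range L).filter fun ℓ => mm ℓ v = v).card = Δ + 2 * p := by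
    intro v hv
    rw [hdg] at hv
    have h1 := hsum v
    have h2 := hd v
    omega
  have hcol : H28.ECol G' d := by
    refine crit hdeg fun x hx => ?_
    obtain ⟨y, h1, h2, h3⟩ := hcr x (hmax x hx)
    refine ⟨y, (hG' x y).2 ⟨h1, h2⟩, fun z hz hzd => ?_⟩
    have h4 := (hG' y z).1 hz
    exact h3 z h4.1 h4.2 (hmax z hzd)
  obtain ⟨ec, hec1, hec2⟩ := hcol
  let Q : ℕ → Sym2 V → Prop := fun ℓ e => ∃ u v, e = s(u, v) ∧ mm ℓ u = v
  have hQ : ∀ ℓ < L, ∀ u v, Q ℓ s(u, v) → mm ℓ u = v := by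
    rintro ℓ hℓ u v ⟨u', v', he, hm⟩
    rcases Sym2.eq_iff.1 he with ⟨h1, h2⟩ | ⟨h1, h2⟩
    · rw [h1, h2]; exact hm
    · rw [h1, h2]; exact hinv' ℓ hℓ _ _ hm
  let fE : Sym2 V → ℕ := fun e => if h : ∃ ℓ, ℓ < L ∧ Q ℓ e then h.choose else L + ec e
  have hfE : ∀ u v, G.Adj u v → (∃ ℓ < L, fE s(u, v) = ℓ ∧ mm ℓ u = v) ∨
      (fE s(u, v) = L + ec s(u, v) ∧ G'.Adj u v) := by
    intro u v huv
    by_cases h : ∃ ℓ, ℓ < L ∧ Q ℓ s(u, v)
    · left
      refine ⟨h.choose, h.choose_spec.1, ?_, hQ _ h.choose_spec.1 _ _ h.choose_spec.2⟩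
      simp only [fE]
      rw [dif_pos h]
    · right
      refine ⟨?_, (hG' u v).2 ⟨huv, fun ℓ hℓ hm => h ⟨ℓ, hℓ, u, v, rfl, hm⟩⟩⟩
      simp only [fE]
      rw [dif_neg h]
  refine ⟨c, fE, ?_, ?_, hprop, ?_, ?_⟩
  · intro v
    have := hc v
    omega
  · intro e he
    induction e using Sym2.ind with
    | _ u v =>
      rw [SimpleGraph.mem_edgeSet] at he
      rcases hfE u v he with ⟨ℓ, hℓ, h1, _⟩ | ⟨h1, h2⟩
      · rw [h1]; omega
      · have h3 := hec1 u v h2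
        rw [h1]; omega
  · intro u v huv
    rcases hfE u v huv with ⟨ℓ, hℓ, h1, h2⟩ | ⟨h1, h2⟩
    · have h4 : ¬ (c u < ℓ + p ∧ ℓ < c u + p) := by
        intro h
        have h5 := hfix ℓ hℓ u h.1 h.2
        rw [h2] at h5
        exact huv.ne h5.symm
      rw [h1, le_abs]
      omega
    · have h3 := hc u
      rw [h1, le_abs]
      right
      push_cast
      omega
  · intro u v w huv huw hvw
    rcases hfE u v huv with ⟨ℓ, hℓ, h1, h2⟩ | ⟨h1, h2⟩ <;>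
      rcases hfE u w huw with ⟨ℓ', hℓ', h1', h2'⟩ | ⟨h1', h2'⟩
    · rw [h1, h1']
      intro h
      rw [h, h2'] at h2
      exact hvw h2.symm
    · rw [h1, h1']; omega
    · rw [h1, h1']; omega
    · rw [h1, h1']
      have := hec2 u v w h2 h2' hvw
      omega

theorem final4 {V : Type} [Fintype V] (G : SimpleGraph V) (Δ p k' L : ℕ) (hp : 1 ≤ p)
    (hL : k' + p - 1 ≤ L) (hL2 : L + 1 ≤ Δ + 2 * p) (c : V → ℕ)
    (hc : ∀ v, c v < k') (hprop : ∀ u v, G.Adj u v → c u ≠ c v)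
    (mm : ℕ → V → V) (hinv : ∀ ℓ < L, Inv (mm ℓ))
    (hadj : ∀ ℓ < L, ∀ v, mm ℓ v ≠ v → G.Adj v (mm ℓ v))
    (hdis : ∀ ℓ < L, ∀ ℓ' < L, ℓ ≠ ℓ' → ∀ v, mm ℓ v ≠ v → mm ℓ v ≠ mm ℓ' v)
    (hfix : ∀ ℓ < L, ∀ v, c v < ℓ + p → ℓ < c v + p → mm ℓ v = v)
    (hd : ∀ v, dg G v + ((range L).filter fun ℓ => mm ℓ v = v).card ≤ Δ + 2 * p)
    (R D : V → Prop)
    (hM : ∀ v, dg G v + ((range L).filter fun ℓ => mm ℓ v = v).card = Δ + 2 * p → R v ∨ D v)
    (hR : ∀ u v, G.Adj u v → R u → R v → ∃ ℓ < L, mm ℓ u = v)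
    (hD : ∀ u v, G.Adj u v → D u → ¬ D v)
    (hRD : ∀ u v w, G.Adj u v → G.Adj u w → D v → D w → v = w) :
    H70.HY.HYLab G Δ p := by
  obtain ⟨d, hd'⟩ : ∃ d, d = Δ + 2 * p - L := ⟨_, rfl⟩
  have hinv' : ∀ ℓ < L, ∀ u v, mm ℓ u = v → mm ℓ v = u := by
    intro ℓ hℓ u v h
    rw [← h]
    exact hinv ℓ hℓ u
  obtain ⟨G', hG'⟩ : ∃ G' : SimpleGraph V, ∀ u v, G'.Adj u v ↔
      G.Adj u v ∧ ∀ ℓ < L, mm ℓ u ≠ v :=
    ⟨{ Adj := fun u v => G.Adj u v ∧ ∀ ℓ < L, mm ℓ u ≠ v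
       symm := ⟨fun u v h => ⟨h.1.symm, fun ℓ hℓ h' => h.2 ℓ hℓ (hinv' ℓ hℓ v u h')⟩⟩
       loopless := ⟨fun u h => h.1.ne rfl⟩ }, fun _ _ => Iff.rfl⟩
  have hdg : ∀ v, (G'.neighborSet v).ncard = dg G' v := by
    intro v
    unfold dg
    rw [← Set.ncard_coe_finset]
    congr 1
    ext w
    simp [SimpleGraph.mem_neighborSet]
  have hsum : ∀ v, dg G' v + L ≤ dg G v + ((range L).filter fun ℓ => mm ℓ v = v).card := by
    intro v
    -- the neighbours `mm ℓ v`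
    have h2 : ((range L).filter fun ℓ => mm ℓ v ≠ v).card + dg G' v ≤ dg G v := by
      have h3 : (((range L).filter fun ℓ => mm ℓ v ≠ v).image fun ℓ => mm ℓ v).card =
          ((range L).filter fun ℓ => mm ℓ v ≠ v).card := by
        refine Finset.card_image_of_injOn ?_
        intro a ha b hb hab
        simp only [Finset.coe_filter, Finset.mem_range, Set.mem_ofPred_eq] at ha hb
        by_contra hne
        exact hdis a ha.1 b hb.1 hne v ha.2 hab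
      rw [← h3]
      unfold dg
      rw [← Finset.card_union_of_disjoint]
      · refine Finset.card_le_card fun w hw => ?_
        rw [Finset.mem_union] at hw
        rw [Finset.mem_filter]
        refine ⟨Finset.mem_univ _, ?_⟩
        rcases hw with hw | hw
        · obtain ⟨ℓ, hℓ, rfl⟩ := Finset.mem_image.1 hw
          rw [Finset.mem_filter, Finset.mem_range] at hℓ
          exact hadj ℓ hℓ.1 v hℓ.2
        · exact ((hG' v w).1 (Finset.mem_filter.1 hw).2).1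
      · rw [Finset.disjoint_left]
        intro w hw hw'
        obtain ⟨ℓ, hℓ, rfl⟩ := Finset.mem_image.1 hw
        rw [Finset.mem_filter, Finset.mem_range] at hℓ
        exact ((hG' v _).1 (Finset.mem_filter.1 hw').2).2 ℓ hℓ.1 rfl
    have h4 : ((range L).filter fun ℓ => mm ℓ v = v).card +
        ((range L).filter fun ℓ => mm ℓ v ≠ v).card = L := by
      rw [Finset.card_filter_add_card_filter_not, Finset.card_range]
    omega
  have hdeg : ∀ v, (G'.neighborSet v).ncard ≤ d := by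
    intro v
    rw [hdg]
    have h1 := hsum v
    have h2 := hd v
    omega
  have hmax : ∀ v, (G'.neighborSet v).ncard = d →
      dg G v + ((range L).filter fun ℓ => mm ℓ v = v).card = Δ + 2 * p := by
    intro v hv
    rw [hdg] at hv
    have h1 := hsum v
    have h2 := hd v
    omega
  have hcol : H28.ECol G' d := by
    refine four_star hdeg R D (fun v hv => hM v (hmax v hv)) (fun u v huv hu hv => ?_)
      (fun u v huv => hD u v ((hG' u v).1 huv).1)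
      (fun u v w huv huw _ hv hw => hRD u v w ((hG' u v).1 huv).1 ((hG' u w).1 huw).1 hv hw)
    obtain ⟨ℓ, hℓ, h⟩ := hR u v ((hG' u v).1 huv).1 hu hv
    exact ((hG' u v).1 huv).2 ℓ hℓ h
  obtain ⟨ec, hec1, hec2⟩ := hcol
  let Q : ℕ → Sym2 V → Prop := fun ℓ e => ∃ u v, e = s(u, v) ∧ mm ℓ u = v
  have hQ : ∀ ℓ < L, ∀ u v, Q ℓ s(u, v) → mm ℓ u = v := by
    rintro ℓ hℓ u v ⟨u', v', he, hm⟩
    rcases Sym2.eq_iff.1 he with ⟨h1, h2⟩ | ⟨h1, h2⟩
    · rw [h1, h2]; exact hm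
    · rw [h1, h2]; exact hinv' ℓ hℓ _ _ hm
  let fE : Sym2 V → ℕ := fun e => if h : ∃ ℓ, ℓ < L ∧ Q ℓ e then h.choose else L + ec e
  have hfE : ∀ u v, G.Adj u v → (∃ ℓ < L, fE s(u, v) = ℓ ∧ mm ℓ u = v) ∨
      (fE s(u, v) = L + ec s(u, v) ∧ G'.Adj u v) := by
    intro u v huv
    by_cases h : ∃ ℓ, ℓ < L ∧ Q ℓ s(u, v)
    · left
      refine ⟨h.choose, h.choose_spec.1, ?_, hQ _ h.choose_spec.1 _ _ h.choose_spec.2⟩
      simp only [fE]
      rw [dif_pos h]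
    · right
      refine ⟨?_, (hG' u v).2 ⟨huv, fun ℓ hℓ hm => h ⟨ℓ, hℓ, u, v, rfl, hm⟩⟩⟩
      simp only [fE]
      rw [dif_neg h]
  refine ⟨c, fE, ?_, ?_, hprop, ?_, ?_⟩
  · intro v
    have := hc v
    omega
  · intro e he
    induction e using Sym2.ind with
    | _ u v =>
      rw [SimpleGraph.mem_edgeSet] at he
      rcases hfE u v he with ⟨ℓ, hℓ, h1, _⟩ | ⟨h1, h2⟩
      · rw [h1]; omega
      · have h3 := hec1 u v h2
        rw [h1]; omega
  · intro u v huv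
    rcases hfE u v huv with ⟨ℓ, hℓ, h1, h2⟩ | ⟨h1, h2⟩
    · have h4 : ¬ (c u < ℓ + p ∧ ℓ < c u + p) := by
        intro h
        have h5 := hfix ℓ hℓ u h.1 h.2
        rw [h2] at h5
        exact huv.ne h5.symm
      rw [h1, le_abs]
      omega
    · have h3 := hc u
      rw [h1, le_abs]
      right
      push_cast
      omega
  · intro u v w huv huw hvw
    rcases hfE u v huv with ⟨ℓ, hℓ, h1, h2⟩ | ⟨h1, h2⟩ <;>
      rcases hfE u w huw with ⟨ℓ', hℓ', h1', h2'⟩ | ⟨h1', h2'⟩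
    · rw [h1, h1']
      intro h
      rw [h, h2'] at h2
      exact hvw h2.symm
    · rw [h1, h1']; omega
    · rw [h1, h1']; omega
    · rw [h1, h1']
      have := hec2 u v w h2 h2' hvw
      omega


/-- V2: the final step from the result of block L. -/
theorem v2 {V : Type} [Fintype V] (G : SimpleGraph V) (Δ p s : ℕ) (hp : 1 ≤ p) (hps : p ≤ s) (hreg : ∀ v, dg G v = Δ)
    (hs : s + 1 ≤ Δ + 2 * p) (c : V → ℕ) (hc1 : ∀ v, p ≤ c v + 1) (hc2 : ∀ v, c v + p ≤ s)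
    (hprop : ∀ u v, G.Adj u v → c u ≠ c v) (mm : ℕ → V → V) (hinv : ∀ ℓ < s, Inv (mm ℓ))
    (hadj : ∀ ℓ < s, ∀ v, mm ℓ v ≠ v → G.Adj v (mm ℓ v))
    (hdis : ∀ ℓ < s, ∀ ℓ' < s, ℓ ≠ ℓ' → ∀ v, mm ℓ v ≠ v → mm ℓ v ≠ mm ℓ' v)
    (hwin : ∀ ℓ < s, ∀ v, c v < ℓ + p → ℓ < c v + p → mm ℓ v = v)
    (R D : V → Prop) (al dl : V → ℕ) (hRD0 : ∀ v, R v → ¬ D v)
    (hcov : ∀ ℓ < s, ∀ v, ¬ (c v < ℓ + p ∧ ℓ < c v + p) → mm ℓ v = v →
      (R v ∧ al v = ℓ) ∨ (D v ∧ dl v = ℓ))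
    (hR : ∀ u v, G.Adj u v → R u → R v → ∃ ℓ < s, mm ℓ u = v)
    (hD : ∀ u v, G.Adj u v → D u → ¬ D v)
    (hRD : ∀ u v w, G.Adj u v → G.Adj u w → D v → D w → v = w) : H70.HY.HYLab G Δ p := by
  have hmiss : ∀ v, ((range s).filter fun ℓ => ¬ (c v < ℓ + p ∧ ℓ < c v + p) ∧ mm ℓ v = v).card ≤ 1 := by
    intro v
    rw [card_le_one]
    intro a ha b hb
    rw [mem_filter, mem_range] at ha hb
    rcases hcov a ha.1 v ha.2.1 ha.2.2 with h | h <;> rcases hcov b hb.1 v hb.2.1 hb.2.2 with h' | h'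
    · rw [← h.2, ← h'.2]
    · exact absurd h'.1 (hRD0 v h.1)
    · exact absurd h.1 (hRD0 v h'.1)
    · rw [← h.2, ← h'.2]
  have hwindow : ∀ v, ((range s).filter fun ℓ => c v < ℓ + p ∧ ℓ < c v + p).card ≤ 2 * p - 1 := by
    intro v
    have h1 : ((range s).filter fun ℓ => c v < ℓ + p ∧ ℓ < c v + p) ⊆ Ico (c v + 1 - p) (c v + p) := by
      intro ℓ hℓ
      rw [mem_filter] at hℓ
      rw [mem_Ico]
      have := hc1 v
      omega
    refine (card_le_card h1).trans ?_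
    rw [Nat.card_Ico]
    have := hc1 v
    omega
  have hsplit : ∀ v, ((range s).filter fun ℓ => mm ℓ v = v).card ≤
      ((range s).filter fun ℓ => c v < ℓ + p ∧ ℓ < c v + p).card +
        ((range s).filter fun ℓ => ¬ (c v < ℓ + p ∧ ℓ < c v + p) ∧ mm ℓ v = v).card := by
    intro v
    refine (card_le_card ?_).trans (card_union_le _ _)
    intro ℓ hℓ
    rw [mem_filter] at hℓ
    rw [mem_union, mem_filter, mem_filter]
    by_cases h : c v < ℓ + p ∧ ℓ < c v + p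
    · exact Or.inl ⟨hℓ.1, h⟩
    · exact Or.inr ⟨hℓ.1, h, hℓ.2⟩
  refine final4 G Δ p (s + 1 - p) s hp (by omega) hs c (fun v => ?_) hprop mm hinv hadj hdis
    (fun ℓ hℓ v h1 h2 => hwin ℓ hℓ v h1 h2) (fun v => ?_) R D (fun v hv => ?_) hR hD hRD
  · have h1 := hc1 v
    have h2 := hc2 v
    omega
  · have h1 := hmiss v
    have h2 := hwindow v
    have h3 := hsplit v
    rw [hreg v]
    omega
  · have h2 := hwindow v
    have h3 := hsplit v
    rw [hreg v] at hv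
    have h4 : 0 < ((range s).filter fun ℓ => ¬ (c v < ℓ + p ∧ ℓ < c v + p) ∧ mm ℓ v = v).card := by omega
    obtain ⟨ℓ, hℓ⟩ := card_pos.1 h4
    rw [mem_filter, mem_range] at hℓ
    rcases hcov ℓ hℓ.1 v hℓ.2.1 hℓ.2.2 with h | h
    · exact Or.inl h.1
    · exact Or.inr h.1

end Pool.Agent.H12.LN
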