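import Pool.Agent.H2.LN.Top
import Pool.Agent.H12.LN.V2

/-!
MP_b8729f, project LN (helper12): the last step, `FinP`.
-/

set_option autoImplicit false

namespace Pool.Agent.H12.LN

open Finset Classical
open Pool.Agent.H65.GI Pool.Agent.H2.LN Pool.Agent.H2.LN.Top

theorem finP : FinP := by
  intro N Δ hPm V _ G hReg s χ D H cl crd M z hB p hp hpN c hc hprop Rc al M' hM
  rcases isEmpty_or_nonempty V with hV | ⟨⟨v0⟩⟩
  · refine ⟨fun _ => 0, fun _ => 0, fun v => hV.elim v, fun e _ => ?_, fun u => hV.elim u, fun u => hV.elim u,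
      fun u => hV.elim u⟩
    exact Nat.zero_le _
  have hps : p ≤ s := by
    have := hc v0
    omega
  have hsle : s ≤ Δ := by
    have h1 := hB.sle
    have h2 : (0 : ℝ) ≤ Δ / N ^ 50 := by positivity
    have h3 : (s : ℝ) ≤ Δ := by linarith
    exact_mod_cast h3
  have hlab : ∀ v, ∃ d : ℕ, ∀ α : Fin s, M α v = v → (α : ℕ) = d := by
    intro v
    by_cases h : ∃ α : Fin s, M α v = v
    · obtain ⟨α, hα⟩ := h
      refine ⟨α, fun β hβ => ?_⟩
      have h1 := card_le_one.1 (hB.on v) β (mem_filter.2 ⟨mem_univ _, hβ⟩) α (mem_filter.2 ⟨mem_univ _, hα⟩)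
      rw [h1]
    · exact ⟨0, fun α hα => absurd ⟨α, hα⟩ h⟩
  choose dl hdl using hlab
  refine v2 G Δ p s hp hps (fun v => ?_) (by omega) c (fun v => (hc v).1) (fun v => (hc v).2) hprop
    (fun ℓ v => if h : ℓ < s then M' ⟨ℓ, h⟩ v else v) ?_ ?_ ?_ ?_
    (fun v => ∃ α, Rs G p c D M Rc al α v) (fun v => v ∈ D) (fun v => (al v : ℕ)) dl ?_ ?_ ?_ ?_ ?_
  · exact hReg v
  · intro ℓ hℓ v
    simp only [dif_pos hℓ]
    exact hM.inv _ v
  · intro ℓ hℓ v
    simp only [dif_pos hℓ]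
    exact hM.adj _ v
  · intro ℓ hℓ ℓ' hℓ' hne v
    simp only [dif_pos hℓ, dif_pos hℓ']
    exact hM.dis _ _ v (fun h => hne (by simpa using h))
  · intro ℓ hℓ v h1 h2
    simp only [dif_pos hℓ]
    exact hM.avo ⟨ℓ, hℓ⟩ v ⟨h1, h2⟩
  · rintro v ⟨α, hα⟩
    exact hα.2.2.1.1
  · intro ℓ hℓ v hw hv
    simp only [dif_pos hℓ] at hv
    rcases hM.cov ⟨ℓ, hℓ⟩ v hw hv with h | h
    · right
      refine ⟨?_, (hdl v _ h).symm⟩
      by_contra hD
      exact hB.off _ v hD h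
    · left
      refine ⟨⟨_, h⟩, ?_⟩
      rw [h.2.1]
  · rintro u v huv ⟨α, hα⟩ ⟨β, hβ⟩
    have hv : v ∈ Rc := hβ.1
    have h1 : v ∉ Es G p c M u := fun h => hα.2.2.2.1 v h hv
    unfold Es at h1
    rw [mem_filter] at h1
    push Not at h1
    obtain ⟨γ, hγ, hγu, hγv⟩ := h1 (mem_univ _) huv
    refine ⟨γ, γ.2, ?_⟩
    simp only [dif_pos γ.2]
    have h2 := hM.x γ u (by rw [hγ]; exact huv.ne') hγu (by rw [hγ]; exact hγv) hα.1 (by rw [hγ]; exact hv)
    rw [← hγ]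
    exact h2
  · intro u v huv hu hv
    exact (hB.sep u hu v hv huv.ne).1 huv
  · intro u v w huv huw hv hw
    by_contra h
    exact (hB.sep v hv w hw h).2 u ⟨huv.symm, huw⟩

end Pool.Agent.H12.LN
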