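import Mathlib
import Pool.Agent.H65.GI.Cnd

/-!
MP_b8729f, project LN (helper12): McDiarmid's inequality on finite product spaces with the uniform measure.
-/

set_option autoImplicit false

namespace Pool.Agent.H12.LN

open Finset Classical
open Pool.Agent.H65.GI

/-- Hoeffding's lemma, uniform measure. -/
theorem hoeff {κ : Type} [Fintype κ] [Nonempty κ] (x : κ → ℝ) (c lam : ℝ) (hc : ∀ k l, |x k - x l| ≤ c) :
    (∑ k, Real.exp (lam * x k)) / Fintype.card κ ≤
      Real.exp (lam * ((∑ k, x k) / Fintype.card κ) + lam ^ 2 * c ^ 2 / 2) := by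
  have hK : (0 : ℝ) < Fintype.card κ := by exact_mod_cast Fintype.card_pos
  obtain ⟨m, hm⟩ : ∃ m, m = (∑ k, x k) / Fintype.card κ := ⟨_, rfl⟩
  rw [← hm]
  have hsum : ∑ k, (x k - m) = 0 := by
    rw [sum_sub_distrib, sum_const, card_univ, nsmul_eq_mul, hm]
    field_simp
    ring
  have hc0 : 0 ≤ c := (abs_nonneg _).trans (hc (Classical.arbitrary κ) (Classical.arbitrary κ))
  have hy : ∀ k, |x k - m| ≤ c := by
    intro k
    have h1 : x k - m = (∑ l, (x k - x l)) / Fintype.card κ := by
      rw [sum_sub_distrib, sum_const, card_univ, nsmul_eq_mul, hm]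
      field_simp
    rw [h1, abs_div, abs_of_pos hK, div_le_iff₀ hK]
    refine (abs_sum_le_sum_abs _ _).trans ?_
    refine (sum_le_sum fun l _ => hc k l).trans (le_of_eq ?_)
    rw [sum_const, card_univ, nsmul_eq_mul, mul_comm]
  have key : ∀ k, Real.exp (lam * (x k - m)) ≤
      Real.cosh (lam * c) + (x k - m) * (Real.sinh (lam * c) / c) := by
    intro k
    rcases hc0.eq_or_lt with h | h
    · have h1 : x k - m = 0 := by
        have := hy k
        rw [← h] at this
        exact abs_nonpos_iff.1 this
      rw [h1, ← h]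
      simp
    · have h1 := abs_le.1 (hy k)
      have h2 := convexOn_exp.2 (Set.mem_univ (lam * c)) (Set.mem_univ (-(lam * c)))
        (show (0 : ℝ) ≤ (c + (x k - m)) / (2 * c) by apply div_nonneg <;> linarith)
        (show (0 : ℝ) ≤ (c - (x k - m)) / (2 * c) by apply div_nonneg <;> linarith)
        (by field_simp; ring)
      simp only [smul_eq_mul] at h2
      have h3 : (c + (x k - m)) / (2 * c) * (lam * c) + (c - (x k - m)) / (2 * c) * -(lam * c) =
          lam * (x k - m) := by
        field_simp
        ring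
      rw [h3] at h2
      refine h2.trans (le_of_eq ?_)
      rw [Real.cosh_eq, Real.sinh_eq]
      field_simp
      ring
  have h1 : (∑ k, Real.exp (lam * (x k - m))) ≤ Fintype.card κ * Real.exp (lam ^ 2 * c ^ 2 / 2) := by
    calc (∑ k, Real.exp (lam * (x k - m))) ≤
        ∑ k, (Real.cosh (lam * c) + (x k - m) * (Real.sinh (lam * c) / c)) := sum_le_sum fun k _ => key k
      _ = Fintype.card κ * Real.cosh (lam * c) := by
          rw [sum_add_distrib, ← sum_mul, hsum, zero_mul, add_zero, sum_const, card_univ, nsmul_eq_mul]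
      _ ≤ Fintype.card κ * Real.exp (lam ^ 2 * c ^ 2 / 2) := by
          refine mul_le_mul_of_nonneg_left ?_ hK.le
          refine (Real.cosh_le_exp_half_sq _).trans (le_of_eq ?_)
          ring_nf
  rw [div_le_iff₀ hK, Real.exp_add]
  have h2 : (∑ k, Real.exp (lam * x k)) = Real.exp (lam * m) * ∑ k, Real.exp (lam * (x k - m)) := by
    rw [mul_sum]
    refine sum_congr rfl fun k _ => ?_
    rw [← Real.exp_add]
    congr 1
    ring
  rw [h2]
  calc Real.exp (lam * m) * ∑ k, Real.exp (lam * (x k - m)) ≤
      Real.exp (lam * m) * (Fintype.card κ * Real.exp (lam ^ 2 * c ^ 2 / 2)) :=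
        mul_le_mul_of_nonneg_left h1 (Real.exp_pos _).le
    _ = _ := by ring

section
variable {I κ : Type} [Fintype I] [Fintype κ] [Nonempty κ]

/-- Average over the coordinate `i`. -/
noncomputable def av (i : I) (f : (I → κ) → ℝ) (ω : I → κ) : ℝ :=
  (∑ k, f (Function.update ω i k)) / Fintype.card κ

theorem ex_av (i : I) (f : (I → κ) → ℝ) : ex (av i f) = ex f := by
  have hK : (0 : ℝ) < Fintype.card κ := by exact_mod_cast Fintype.card_pos
  have h1 : ∀ k : κ, ∑ ω : I → κ, f (Function.update ω i k) =
      ∑ ω : I → κ, if ω i = k then (Fintype.card κ : ℝ) * f ω else 0 := by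
    intro k
    have h2 : ∀ ω : I → κ, f (Function.update ω i k) =
        ∑ ω' : I → κ, if ω' = Function.update ω i k then f ω' else 0 := by
      intro ω
      rw [sum_ite_eq' univ (Function.update ω i k) f, if_pos (mem_univ _)]
    simp_rw [h2]
    rw [sum_comm]
    refine sum_congr rfl fun ω' _ => ?_
    by_cases hω : ω' i = k
    · rw [if_pos hω]
      have h3 : ∀ ω : I → κ, (if ω' = Function.update ω i k then f ω' else 0) =
          if ω ∈ (univ.image fun l => Function.update ω' i l) then f ω' else 0 := by
        intro ω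
        refine if_congr ?_ rfl rfl
        rw [mem_image]
        constructor
        · intro h
          refine ⟨ω i, mem_univ _, ?_⟩
          rw [h, Function.update_idem, Function.update_eq_self]
        · rintro ⟨l, _, rfl⟩
          rw [Function.update_idem, ← hω, Function.update_eq_self]
      rw [sum_congr rfl fun ω _ => h3 ω, ← sum_filter, sum_const, nsmul_eq_mul]
      congr 2
      have h4 : (univ.filter fun ω : I → κ => ω ∈ univ.image fun l => Function.update ω' i l) =
          univ.image fun l => Function.update ω' i l := by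
        ext ω
        simp
      rw [h4, card_image_of_injective, card_univ]
      intro a b hab
      have := congrFun hab i
      simpa using this
    · rw [if_neg hω]
      refine sum_eq_zero fun ω _ => if_neg fun h => hω ?_
      rw [h, Function.update_self]
  unfold ex av
  congr 1
  rw [← sum_div, sum_comm, sum_congr rfl fun k _ => h1 k, sum_comm, div_eq_iff hK.ne', sum_mul]
  refine sum_congr rfl fun ω _ => ?_
  rw [sum_ite_eq univ (ω i) (fun _ => (Fintype.card κ : ℝ) * f ω), if_pos (mem_univ _), mul_comm]

/-- bounded differences -/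
def BD (f : (I → κ) → ℝ) (c : I → ℝ) : Prop := ∀ i ω k l, |f (Function.update ω i k) - f (Function.update ω i l)| ≤ c i

theorem av_bd (i : I) (f : (I → κ) → ℝ) (c : I → ℝ) (hf : BD f c) : BD (av i f) c := by
  have hK : (0 : ℝ) < Fintype.card κ := by exact_mod_cast Fintype.card_pos
  intro j ω k l
  unfold av
  rw [← sub_div, ← sum_sub_distrib, abs_div, abs_of_pos hK, div_le_iff₀ hK]
  have hcj : 0 ≤ c j := (abs_nonneg _).trans (hf j ω k l)
  by_cases hij : i = j
  · subst hij
    refine (le_of_eq ?_).trans (mul_nonneg hcj hK.le)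
    rw [abs_eq_zero]
    refine sum_eq_zero fun a _ => ?_
    rw [Function.update_idem, Function.update_idem, sub_self]
  · refine (abs_sum_le_sum_abs _ _).trans ?_
    refine (sum_le_sum fun a _ => (?_ : _ ≤ c j)).trans (le_of_eq ?_)
    · rw [Function.update_comm (Ne.symm hij), Function.update_comm (Ne.symm hij)]
      exact hf j _ k l
    · rw [sum_const, card_univ, nsmul_eq_mul, mul_comm]

/-- one step -/
theorem ex_exp_av (i : I) (f : (I → κ) → ℝ) (c : I → ℝ) (hf : BD f c) (lam : ℝ) :
    ex (fun ω => Real.exp (lam * f ω)) ≤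
      Real.exp (lam ^ 2 * (c i) ^ 2 / 2) * ex (fun ω => Real.exp (lam * av i f ω)) := by
  rw [← ex_av i (fun ω => Real.exp (lam * f ω)), ← ex_smul]
  refine ex_mono fun ω => ?_
  have h := hoeff (fun k => f (Function.update ω i k)) (c i) lam (fun k l => hf i ω k l)
  unfold av
  refine h.trans (le_of_eq ?_)
  rw [Real.exp_add, mul_comm]

/-- averages over a list of coordinates -/
noncomputable def avl (f : (I → κ) → ℝ) : List I → (I → κ) → ℝ
  | [] => f
  | i :: l => av i (avl f l)

theorem avl_bd (f : (I → κ) → ℝ) (c : I → ℝ) (hf : BD f c) (l : List I) : BD (avl f l) c := by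
  induction l with
  | nil => exact hf
  | cons i l ih => exact av_bd i _ c ih

theorem ex_avl (f : (I → κ) → ℝ) (l : List I) : ex (avl f l) = ex f := by
  induction l with
  | nil => rfl
  | cons i l ih => exact (ex_av i _).trans ih

theorem avl_const (f : (I → κ) → ℝ) (l : List I) (i : I) (hi : i ∈ l) (ω : I → κ) (k : κ) :
    avl f l (Function.update ω i k) = avl f l ω := by
  induction l generalizing ω with
  | nil => exact absurd hi List.not_mem_nil
  | cons j l ih =>
    show av j (avl f l) _ = av j (avl f l) _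
    unfold av
    congr 1
    refine sum_congr rfl fun a _ => ?_
    by_cases hij : j = i
    · subst hij
      rw [Function.update_idem]
    · have hil : i ∈ l := by
        rcases List.mem_cons.1 hi with h | h
        · exact absurd h.symm hij
        · exact h
      rw [Function.update_comm (Ne.symm hij)]
      exact ih hil _

theorem ex_exp_avl (f : (I → κ) → ℝ) (c : I → ℝ) (hf : BD f c) (lam : ℝ) (l : List I) :
    ex (fun ω => Real.exp (lam * f ω)) ≤
      Real.exp (lam ^ 2 * (l.map fun i => (c i) ^ 2).sum / 2) * ex (fun ω => Real.exp (lam * avl f l ω)) := by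
  induction l with
  | nil => simp [avl]
  | cons i l ih =>
    refine ih.trans ?_
    have h1 := ex_exp_av i (avl f l) c (avl_bd f c hf l) lam
    have h2 := mul_le_mul_of_nonneg_left h1
      (Real.exp_pos (lam ^ 2 * (l.map fun i => (c i) ^ 2).sum / 2)).le
    refine h2.trans (le_of_eq ?_)
    rw [← mul_assoc, ← Real.exp_add, List.map_cons, List.sum_cons]
    congr 2
    ring

/-- McDiarmid's inequality, upper tail. -/
theorem mcd (f : (I → κ) → ℝ) (c : I → ℝ) (hf : BD f c) (B t : ℝ) (hB : ∑ i, (c i) ^ 2 ≤ B) (hB0 : 0 < B)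
    (ht : 0 ≤ t) : pr (fun ω => ex f + t ≤ f ω) ≤ Real.exp (-(t ^ 2 / (2 * B))) := by
  have hΩ : (0 : ℝ) < Fintype.card (I → κ) := by exact_mod_cast Fintype.card_pos
  obtain ⟨l, hl⟩ : ∃ l, l = (univ : Finset I).toList := ⟨_, rfl⟩
  have hmem : ∀ i, i ∈ l := fun i => by rw [hl, mem_toList]; exact mem_univ i
  have hconst : ∀ ω ω' : I → κ, avl f l ω = avl f l ω' := by
    intro ω ω'
    have h : ∀ S : Finset I, avl f l (fun i => if i ∈ S then ω' i else ω i) = avl f l ω := by
      intro S
      induction S using Finset.induction_on with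
      | empty => simp
      | insert a S _ ih =>
        rw [← ih]
        have e : (fun i => if i ∈ insert a S then ω' i else ω i) =
            Function.update (fun i => if i ∈ S then ω' i else ω i) a (ω' a) := by
          funext i
          by_cases hi : i = a
          · subst hi
            simp
          · rw [Function.update_of_ne hi]
            simp [hi]
        rw [e]
        exact avl_const f l a (hmem a) _ _
    rw [← h univ]
    simp
  have hval : ∀ ω, avl f l ω = ex f := by
    intro ω
    rw [← ex_avl f l]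
    have : ex (avl f l) = ex (fun _ : I → κ => avl f l ω) := by
      congr 1
      funext ω'
      exact hconst ω' ω
    rw [this, ex_const]
  have hsum : (l.map fun i => (c i) ^ 2).sum = ∑ i, (c i) ^ 2 := by
    rw [hl, Finset.sum_map_toList]
  obtain ⟨lam, hlam⟩ : ∃ lam, lam = t / B := ⟨_, rfl⟩
  have hlam0 : 0 ≤ lam := by rw [hlam]; positivity
  have h1 := ex_exp_avl f c hf lam l
  have h2 : ex (fun ω => Real.exp (lam * avl f l ω)) = Real.exp (lam * ex f) := by
    have : (fun ω : I → κ => Real.exp (lam * avl f l ω)) = fun _ => Real.exp (lam * ex f) := by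
      funext ω
      rw [hval]
    rw [this, ex_const]
  rw [h2, hsum] at h1
  have h3 : pr (fun ω => ex f + t ≤ f ω) * Real.exp (lam * (ex f + t)) ≤ ex (fun ω => Real.exp (lam * f ω)) := by
    unfold pr ex
    rw [div_mul_eq_mul_div]
    refine div_le_div_of_nonneg_right ?_ hΩ.le
    calc ((univ.filter (fun ω : I → κ => (∑ ω, f ω) / Fintype.card (I → κ) + t ≤ f ω)).card : ℝ) *
          Real.exp (lam * ((∑ ω, f ω) / Fintype.card (I → κ) + t))
        = ∑ _ω ∈ univ.filter (fun ω : I → κ => (∑ ω, f ω) / Fintype.card (I → κ) + t ≤ f ω),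
            Real.exp (lam * ((∑ ω, f ω) / Fintype.card (I → κ) + t)) := by
          rw [sum_const, nsmul_eq_mul]
      _ ≤ ∑ ω ∈ univ.filter (fun ω : I → κ => (∑ ω, f ω) / Fintype.card (I → κ) + t ≤ f ω),
            Real.exp (lam * f ω) := by
          refine sum_le_sum fun ω hω => Real.exp_le_exp.2 ?_
          exact mul_le_mul_of_nonneg_left (mem_filter.1 hω).2 hlam0
      _ ≤ ∑ ω, Real.exp (lam * f ω) :=
          sum_le_sum_of_subset_of_nonneg (filter_subset _ _) fun _ _ _ => (Real.exp_pos _).le
  have h4 := h3.trans h1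
  rw [← le_div_iff₀ (Real.exp_pos _)] at h4
  refine h4.trans ?_
  rw [mul_comm (Real.exp _) (Real.exp (lam * ex f)), ← Real.exp_add, ← Real.exp_sub]
  refine Real.exp_le_exp.2 ?_
  have h5 : lam ^ 2 * (∑ i, (c i) ^ 2) / 2 ≤ lam ^ 2 * B / 2 := by
    have := mul_le_mul_of_nonneg_left hB (sq_nonneg lam)
    linarith
  have h6 : lam * ex f + lam ^ 2 * B / 2 - lam * (ex f + t) = -(t ^ 2 / (2 * B)) := by
    rw [hlam]
    field_simp
    ring
  linarith

/-- McDiarmid's inequality, lower tail. -/
theorem mcd' (f : (I → κ) → ℝ) (c : I → ℝ) (hf : BD f c) (B t : ℝ) (hB : ∑ i, (c i) ^ 2 ≤ B) (hB0 : 0 < B)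
    (ht : 0 ≤ t) : pr (fun ω => f ω ≤ ex f - t) ≤ Real.exp (-(t ^ 2 / (2 * B))) := by
  have h := mcd (fun ω => -f ω) c (fun i ω k l => by
    have := hf i ω k l
    rw [← abs_neg]
    convert this using 2
    ring) B t hB hB0 ht
  refine le_trans (le_of_eq ?_) h
  have e : ex (fun ω => -f ω) = -ex f := by
    have := ex_smul (-1) f
    simpa using this
  rw [e]
  congr 1
  funext ω
  apply propext
  constructor
  · intro h1
    linarith
  · intro h1
    linarith

end

end Pool.Agent.H12.LN
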