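import Mathlib
import Pool.Agent.H12.LN.Mcd

/-!
MP_b8729f, project LN (helper12): probability tools on finite product spaces with the uniform measure: change of
variables, McDiarmid's inequality for blocks and two-sided, Bernstein's inequality.
-/

set_option autoImplicit false
set_option linter.unusedSectionVars false

namespace Pool.Agent.H12.LN

open Finset Classical
open Pool.Agent.H65.GI

/-! ## Change of variables -/

theorem ex_equiv {Ω Ω' : Type} [Fintype Ω] [Fintype Ω'] (E : Ω ≃ Ω') (f : Ω' → ℝ) :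
    ex (fun ω => f (E ω)) = ex f := by
  unfold ex
  rw [Equiv.sum_comp E f, Fintype.card_congr E]

theorem pr_equiv {Ω Ω' : Type} [Fintype Ω] [Fintype Ω'] (E : Ω ≃ Ω') (A : Ω' → Prop) :
    pr (fun ω => A (E ω)) = pr A := by
  rw [ex_ind, ex_ind]
  exact ex_equiv E (fun ω => if A ω then (1 : ℝ) else 0)

/-- a permutation of the indices and permutations of the values -/
def symE {I κ : Type} (π : Equiv.Perm I) (τ : I → Equiv.Perm κ) : Equiv.Perm (I → κ) where
  toFun ω := fun i => τ i (ω (π i))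
  invFun ω := fun i => (τ (π.symm i)).symm (ω (π.symm i))
  left_inv ω := by
    funext i
    simp
  right_inv ω := by
    funext i
    simp

theorem ex_sym {I κ : Type} [Fintype I] [Fintype κ] (π : Equiv.Perm I) (τ : I → Equiv.Perm κ)
    (f : (I → κ) → ℝ) : ex (fun ω : I → κ => f (fun i => τ i (ω (π i)))) = ex f :=
  ex_equiv (symE π τ) f

theorem pr_sym {I κ : Type} [Fintype I] [Fintype κ] (π : Equiv.Perm I) (τ : I → Equiv.Perm κ)
    (A : (I → κ) → Prop) : pr (fun ω : I → κ => A (fun i => τ i (ω (π i)))) = pr A :=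
  pr_equiv (symE π τ) A

theorem ex_perm {I κ : Type} [Fintype I] [Fintype κ] (π : Equiv.Perm I) (f : (I → κ) → ℝ) :
    ex (fun ω : I → κ => f (fun i => ω (π i))) = ex f := ex_sym π (fun _ => Equiv.refl κ) f

theorem pr_perm {I κ : Type} [Fintype I] [Fintype κ] (π : Equiv.Perm I) (A : (I → κ) → Prop) :
    pr (fun ω : I → κ => A (fun i => ω (π i))) = pr A := pr_sym π (fun _ => Equiv.refl κ) A

theorem ex_fst {α β : Type} [Fintype α] [Fintype β] [Nonempty β] (f : α → ℝ) :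
    ex (fun p : α × β => f p.1) = ex f := by
  have hβ : (Fintype.card β : ℝ) ≠ 0 := by exact_mod_cast Fintype.card_ne_zero
  unfold ex
  rw [Fintype.sum_prod_type, Fintype.card_prod]
  have h : ∀ x : α, (∑ _y : β, f x) = (Fintype.card β : ℝ) * f x := by
    intro x
    rw [sum_const, card_univ, nsmul_eq_mul]
  rw [sum_congr rfl fun x _ => h x, ← mul_sum]
  push_cast
  rw [mul_comm (Fintype.card α : ℝ), mul_div_mul_left _ _ hβ]

/-- a function of the coordinates in the range of an injection -/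
theorem ex_emb {I I' κ : Type} [Fintype I] [Fintype I'] [Fintype κ] [Nonempty κ] (e : I → I')
    (he : Function.Injective e) (f : (I → κ) → ℝ) : ex (fun ω : I' → κ => f (fun i => ω (e i))) = ex f := by
  have h1 := ex_equiv (Equiv.piEquivPiSubtypeProd (fun i' => i' ∈ Set.range e) (fun _ : I' => κ))
    (fun p => f (fun i => p.1 ⟨e i, i, rfl⟩))
  have h2 : (fun ω : I' → κ => f (fun i => ω (e i))) = fun ω =>
      (fun p : ({i' // i' ∈ Set.range e} → κ) × ({i' // i' ∉ Set.range e} → κ) =>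
        f (fun i => p.1 ⟨e i, i, rfl⟩))
        (Equiv.piEquivPiSubtypeProd (fun i' => i' ∈ Set.range e) (fun _ : I' => κ) ω) := by
    funext ω
    rfl
  rw [h2, h1]
  rw [ex_fst (β := {i' // i' ∉ Set.range e} → κ) (fun a : {i' // i' ∈ Set.range e} → κ =>
    f (fun i => a ⟨e i, i, rfl⟩))]
  have h3 := ex_equiv (Equiv.arrowCongr (Equiv.ofInjective e he).symm (Equiv.refl κ)) f
  rw [← h3]
  congr 1

/-! ## McDiarmid's inequality -/

section
variable {I κ : Type} [Fintype I] [Fintype κ] [Nonempty κ]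

/-- two-sided -/
theorem mcd2 (f : (I → κ) → ℝ) (c : I → ℝ) (hf : BD f c) (B t : ℝ) (hB : ∑ i, (c i) ^ 2 ≤ B) (hB0 : 0 < B)
    (ht : 0 ≤ t) : pr (fun ω => t ≤ |f ω - ex f|) ≤ 2 * Real.exp (-(t ^ 2 / (2 * B))) := by
  have h1 := mcd f c hf B t hB hB0 ht
  have h2 := mcd' f c hf B t hB hB0 ht
  have h3 : pr (fun ω => t ≤ |f ω - ex f|) ≤ pr (fun ω => ex f + t ≤ f ω ∨ f ω ≤ ex f - t) := by
    refine pr_mono fun ω hω => ?_
    rcases le_abs.1 hω with h | h
    · left; linarith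
    · right; linarith
  have h4 := pr_or (fun ω => ex f + t ≤ f ω) (fun ω => f ω ≤ ex f - t)
  linarith

/-- bounded differences for the blocks of `bk` -/
def BDb {J : Type} (bk : I → J) (f : (I → κ) → ℝ) (c : J → ℝ) : Prop :=
  ∀ j ω ω', (∀ i, bk i ≠ j → ω i = ω' i) → |f ω - f ω'| ≤ c j

theorem bdb_aux {J : Type} [Fintype J] (bk : I → J) (f : (I → κ) → ℝ) (c : J → ℝ) (hf : BDb bk f c) :
    BD (fun η : J → (I → κ) => f (fun i => η (bk i) i)) c := by
  intro j η a b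
  refine hf j _ _ fun i hi => ?_
  rw [Function.update_of_ne hi, Function.update_of_ne hi]

theorem ex_bk {J : Type} [Fintype J] (bk : I → J) (f : (I → κ) → ℝ) :
    ex (fun η : J → (I → κ) => f (fun i => η (bk i) i)) = ex f := by
  have h1 := ex_equiv (Equiv.curry J I κ).symm (fun ω : J × I → κ => f (fun i => ω (bk i, i)))
  have h2 := ex_emb (κ := κ) (fun i : I => (bk i, i)) (fun a b h => (Prod.ext_iff.1 h).2) f
  refine h1.trans ?_
  rw [← h2]
  congr 1
  exact Subsingleton.elim _ _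

theorem pr_bk {J : Type} [Fintype J] (bk : I → J) (A : (I → κ) → Prop) :
    pr (fun η : J → (I → κ) => A (fun i => η (bk i) i)) = pr A := by
  rw [ex_ind, ex_ind]
  exact ex_bk bk (fun ω => if A ω then (1 : ℝ) else 0)

/-- McDiarmid's inequality for blocks, upper tail -/
theorem mcdb {J : Type} [Fintype J] (bk : I → J) (f : (I → κ) → ℝ) (c : J → ℝ) (hf : BDb bk f c) (B t : ℝ)
    (hB : ∑ j, (c j) ^ 2 ≤ B) (hB0 : 0 < B) (ht : 0 ≤ t) :
    pr (fun ω => ex f + t ≤ f ω) ≤ Real.exp (-(t ^ 2 / (2 * B))) := by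
  have h := mcd _ c (bdb_aux bk f c hf) B t hB hB0 ht
  rw [ex_bk] at h
  rw [← pr_bk bk]
  exact h

/-- McDiarmid's inequality for blocks, lower tail -/
theorem mcdb' {J : Type} [Fintype J] (bk : I → J) (f : (I → κ) → ℝ) (c : J → ℝ) (hf : BDb bk f c) (B t : ℝ)
    (hB : ∑ j, (c j) ^ 2 ≤ B) (hB0 : 0 < B) (ht : 0 ≤ t) :
    pr (fun ω => f ω ≤ ex f - t) ≤ Real.exp (-(t ^ 2 / (2 * B))) := by
  have h := mcd' _ c (bdb_aux bk f c hf) B t hB hB0 ht
  rw [ex_bk] at h
  rw [← pr_bk bk]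
  exact h

/-- McDiarmid's inequality for blocks, two-sided -/
theorem mcdb2 {J : Type} [Fintype J] (bk : I → J) (f : (I → κ) → ℝ) (c : J → ℝ) (hf : BDb bk f c) (B t : ℝ)
    (hB : ∑ j, (c j) ^ 2 ≤ B) (hB0 : 0 < B) (ht : 0 ≤ t) :
    pr (fun ω => t ≤ |f ω - ex f|) ≤ 2 * Real.exp (-(t ^ 2 / (2 * B))) := by
  have h := mcd2 _ c (bdb_aux bk f c hf) B t hB hB0 ht
  rw [ex_bk] at h
  rw [← pr_bk bk]
  exact h

/-! ## Markov's inequality for the exponential -/

theorem markov_exp {Ω : Type} [Fintype Ω] [Nonempty Ω] (f : Ω → ℝ) (lam t b : ℝ) (hlam : 0 ≤ lam)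
    (h : ex (fun ω => Real.exp (lam * f ω)) ≤ Real.exp b) :
    pr (fun ω => t ≤ f ω) ≤ Real.exp (b - lam * t) := by
  have hΩ : (0 : ℝ) < Fintype.card Ω := by exact_mod_cast Fintype.card_pos
  have h3 : pr (fun ω => t ≤ f ω) * Real.exp (lam * t) ≤ ex (fun ω => Real.exp (lam * f ω)) := by
    unfold pr ex
    rw [div_mul_eq_mul_div]
    refine div_le_div_of_nonneg_right ?_ hΩ.le
    calc ((univ.filter (fun ω : Ω => t ≤ f ω)).card : ℝ) * Real.exp (lam * t)
        = ∑ _ω ∈ univ.filter (fun ω : Ω => t ≤ f ω), Real.exp (lam * t) := by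
          rw [sum_const, nsmul_eq_mul]
      _ ≤ ∑ ω ∈ univ.filter (fun ω : Ω => t ≤ f ω), Real.exp (lam * f ω) := by
          refine sum_le_sum fun ω hω => Real.exp_le_exp.2 ?_
          exact mul_le_mul_of_nonneg_left (mem_filter.1 hω).2 hlam
      _ ≤ ∑ ω, Real.exp (lam * f ω) :=
          sum_le_sum_of_subset_of_nonneg (filter_subset _ _) fun _ _ _ => (Real.exp_pos _).le
  have h4 := h3.trans h
  rw [← le_div_iff₀ (Real.exp_pos _), ← Real.exp_sub] at h4
  exact h4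

/-! ## Bernstein's inequality -/

theorem exp_quad (x : ℝ) (hx : |x| ≤ 1) : Real.exp x ≤ 1 + x + x ^ 2 := by
  have h := Real.abs_exp_sub_one_sub_id_le hx
  have := (abs_le.1 h).2
  linarith

/-- Bernstein's inequality, upper tail: independent centred variables. -/
theorem bern {ι : Type} (J : Finset ι) (X : ι → (I → κ) → ℝ) (S : ι → Finset I)
    (hS : ∀ i ∈ J, Loc (X i) (S i)) (hd : ∀ i ∈ J, ∀ j ∈ J, i ≠ j → Disjoint (S i) (S j))
    (v : ι → ℝ) (w V t : ℝ) (hX0 : ∀ i ∈ J, ex (X i) = 0) (hXw : ∀ i ∈ J, ∀ ω, |X i ω| ≤ w)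
    (hXv : ∀ i ∈ J, ex (fun ω => X i ω ^ 2) ≤ v i) (hV : ∑ i ∈ J, v i ≤ V) (hw : 0 ≤ w) (hV0 : 0 ≤ V)
    (ht : 0 ≤ t) : pr (fun ω => t ≤ ∑ i ∈ J, X i ω) ≤ Real.exp (-(t ^ 2 / (4 * (V + w * t)))) := by
  by_cases hD : V + w * t = 0
  · rw [hD]
    simp only [mul_zero, div_zero, neg_zero, Real.exp_zero]
    exact pr_le_one _
  have hD0 : 0 < V + w * t := lt_of_le_of_ne (by positivity) (Ne.symm hD)
  obtain ⟨lam, hlam⟩ : ∃ lam, lam = t / (2 * (V + w * t)) := ⟨_, rfl⟩
  have hlam0 : 0 ≤ lam := by rw [hlam]; positivity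
  have hlw : lam * w ≤ 1 := by
    rw [hlam, div_mul_eq_mul_div, div_le_one (by positivity)]
    nlinarith
  have h1 : ∀ i ∈ J, ex (fun ω => Real.exp (lam * X i ω)) ≤ Real.exp (lam ^ 2 * v i) := by
    intro i hi
    have h2 : ex (fun ω => Real.exp (lam * X i ω)) ≤ ex (fun ω => (1 + lam * X i ω) + lam ^ 2 * X i ω ^ 2) := by
      refine ex_mono fun ω => ?_
      refine (exp_quad _ ?_).trans (le_of_eq (by ring))
      rw [abs_mul, abs_of_nonneg hlam0]
      exact (mul_le_mul_of_nonneg_left (hXw i hi ω) hlam0).trans hlw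
    rw [ex_add, ex_add (fun _ => 1) (fun ω => lam * X i ω), ex_const, ex_smul, ex_smul, hX0 i hi] at h2
    have h3 := mul_le_mul_of_nonneg_left (hXv i hi) (sq_nonneg lam)
    have h4 := Real.add_one_le_exp (lam ^ 2 * v i)
    linarith
  have h2 : ex (fun ω => Real.exp (lam * ∑ i ∈ J, X i ω)) ≤ Real.exp (lam ^ 2 * V) := by
    have e : (fun ω : I → κ => Real.exp (lam * ∑ i ∈ J, X i ω)) =
        fun ω => ∏ i ∈ J, Real.exp (lam * X i ω) := by
      funext ω
      rw [mul_sum, Real.exp_sum]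
    rw [e, ex_prod J (fun i ω => Real.exp (lam * X i ω)) S (fun i hi ω ω' h => by
      simp only [hS i hi ω ω' h]) hd]
    calc ∏ i ∈ J, ex (fun ω => Real.exp (lam * X i ω)) ≤ ∏ i ∈ J, Real.exp (lam ^ 2 * v i) := by
          refine prod_le_prod (fun i _ => ?_) h1
          unfold ex
          exact div_nonneg (sum_nonneg fun _ _ => (Real.exp_pos _).le) (Nat.cast_nonneg _)
      _ = Real.exp (lam ^ 2 * ∑ i ∈ J, v i) := by rw [mul_sum, Real.exp_sum]
      _ ≤ _ := Real.exp_le_exp.2 (mul_le_mul_of_nonneg_left hV (sq_nonneg lam))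
  refine (markov_exp _ lam t _ hlam0 h2).trans (Real.exp_le_exp.2 ?_)
  have h5 : lam ^ 2 * V ≤ lam ^ 2 * (V + w * t) := by
    refine mul_le_mul_of_nonneg_left ?_ (sq_nonneg lam)
    nlinarith
  have h6 : lam ^ 2 * (V + w * t) - lam * t = -(t ^ 2 / (4 * (V + w * t))) := by
    rw [hlam]
    field_simp
    ring
  linarith

/-- Bernstein's inequality, two-sided. -/
theorem bern2 {ι : Type} (J : Finset ι) (X : ι → (I → κ) → ℝ) (S : ι → Finset I)
    (hS : ∀ i ∈ J, Loc (X i) (S i)) (hd : ∀ i ∈ J, ∀ j ∈ J, i ≠ j → Disjoint (S i) (S j))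
    (v : ι → ℝ) (w V t : ℝ) (hX0 : ∀ i ∈ J, ex (X i) = 0) (hXw : ∀ i ∈ J, ∀ ω, |X i ω| ≤ w)
    (hXv : ∀ i ∈ J, ex (fun ω => X i ω ^ 2) ≤ v i) (hV : ∑ i ∈ J, v i ≤ V) (hw : 0 ≤ w) (hV0 : 0 ≤ V)
    (ht : 0 ≤ t) : pr (fun ω => t ≤ |∑ i ∈ J, X i ω|) ≤ 2 * Real.exp (-(t ^ 2 / (4 * (V + w * t)))) := by
  have h1 := bern J X S hS hd v w V t hX0 hXw hXv hV hw hV0 ht
  have h2 := bern J (fun i ω => -X i ω) S (fun i hi ω ω' h => by simp only [hS i hi ω ω' h]) hd v w V t
    (fun i hi => by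
      have := ex_smul (-1) (X i)
      rw [hX0 i hi] at this
      simpa using this) (fun i hi ω => by rw [abs_neg]; exact hXw i hi ω)
    (fun i hi => by simpa using hXv i hi) hV hw hV0 ht
  have h3 : pr (fun ω => t ≤ |∑ i ∈ J, X i ω|) ≤ pr (fun ω => t ≤ ∑ i ∈ J, X i ω ∨ t ≤ ∑ i ∈ J, -X i ω) := by
    refine pr_mono fun ω hω => ?_
    rcases le_abs.1 hω with h | h
    · left; exact h
    · right; rw [sum_neg_distrib]; exact h
  have h4 := pr_or (fun ω => t ≤ ∑ i ∈ J, X i ω) (fun ω => t ≤ ∑ i ∈ J, -X i ω)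
  linarith

/-- Weighted sums of independent events, two-sided. -/
theorem ber {ι : Type} (J : Finset ι) (A : ι → (I → κ) → Prop) (S : ι → Finset I)
    (hS : ∀ i ∈ J, Loc (A i) (S i)) (hd : ∀ i ∈ J, ∀ j ∈ J, i ≠ j → Disjoint (S i) (S j))
    (w : ι → ℝ) (W V t : ℝ) (hw : ∀ i ∈ J, 0 ≤ w i ∧ w i ≤ W)
    (hV : ∑ i ∈ J, w i ^ 2 * pr (A i) ≤ V) (hW : 0 ≤ W) (ht : 0 ≤ t) :
    pr (fun ω => t ≤ |(∑ i ∈ J, if A i ω then w i else 0) - ∑ i ∈ J, w i * pr (A i)|) ≤
      2 * Real.exp (-(t ^ 2 / (4 * (V + W * t)))) := by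
  have hV0 : 0 ≤ V := (sum_nonneg fun i _ => mul_nonneg (sq_nonneg _) (pr_nonneg _)).trans hV
  have h := bern2 J (fun i ω => w i * ((if A i ω then (1 : ℝ) else 0) - pr (A i))) S
    (fun i hi ω ω' h => by
      have := hS i hi ω ω' h
      simp only [this]) hd (fun i => w i ^ 2 * pr (A i)) W V t
    (fun i _ => by
      rw [ex_smul]
      have : ex (fun ω : I → κ => (if A i ω then (1 : ℝ) else 0) + -pr (A i)) = 0 := by
        rw [ex_add (fun ω : I → κ => if A i ω then (1 : ℝ) else 0) (fun _ => -pr (A i)), ← ex_ind, ex_const]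
        ring
      simp only [sub_eq_add_neg]
      rw [this, mul_zero])
    (fun i hi ω => by
      have h0 := pr_nonneg (A i)
      have h1 := pr_le_one (A i)
      rw [abs_mul, abs_of_nonneg (hw i hi).1]
      have : |(if A i ω then (1 : ℝ) else 0) - pr (A i)| ≤ 1 := by
        rw [abs_le]
        split_ifs <;> constructor <;> linarith
      calc w i * |(if A i ω then (1 : ℝ) else 0) - pr (A i)| ≤ w i * 1 :=
            mul_le_mul_of_nonneg_left this (hw i hi).1
        _ ≤ W := by rw [mul_one]; exact (hw i hi).2)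
    (fun i hi => by
      have e : (fun ω : I → κ => (w i * ((if A i ω then (1 : ℝ) else 0) - pr (A i))) ^ 2) =
          fun ω => (w i ^ 2 * (1 - 2 * pr (A i))) * (if A i ω then (1 : ℝ) else 0) + w i ^ 2 * pr (A i) ^ 2 := by
        funext ω
        split_ifs <;> ring
      rw [e, ex_add, ex_smul, ← ex_ind, ex_const]
      have h0 := pr_nonneg (A i)
      nlinarith [sq_nonneg (w i), mul_nonneg (sq_nonneg (w i)) (mul_nonneg h0 h0)]) hV hW hV0 ht
  refine le_trans (le_of_eq ?_) h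
  congr 1
  funext ω
  congr 2
  rw [← sum_sub_distrib]
  refine sum_congr rfl fun i _ => ?_
  split_ifs <;> ring

end

end Pool.Agent.H12.LN
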