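import Pool.Agent.H2.LN.Top
import Pool.Agent.H12.LN.Tools
import Pool.Agent.H65.GI.Chf
import Pool.Agent.H65.GI.Lll

/-!
MP_b8729f, project LN, section V3 (helper12): coins with random labels; bounded differences of local sums.
-/

set_option autoImplicit false
set_option linter.unusedSectionVars false

namespace Pool.Agent.H12.LN

open Finset Classical
open Pool.Agent.H65.GI

section
variable {V : Type} [Fintype V] {R s : ℕ}

/-- coins: `V → Fin R × Fin s` -/
abbrev Cs (V : Type) (R s : ℕ) := V → Fin R × Fin s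

/-- `v` has a coin -/
def coin (ω : Cs V R s) (v : V) : Prop := ((ω v).1 : ℕ) = 0

/-- the label -/
def lab (ω : Cs V R s) (v : V) : Fin s := (ω v).2

/-- an event of one coordinate -/
theorem pr_coord {I κ : Type} [Fintype I] [Fintype κ] [Nonempty κ] (i : I) (P : κ → Prop) :
    pr (fun ω : I → κ => P (ω i)) = pr P := by
  rw [ex_ind, ex_ind]
  have h1 := ex_emb (κ := κ) (fun _ : Unit => i) (fun _ _ _ => rfl) (fun ω : Unit → κ => if P (ω ()) then (1 : ℝ) else 0)
  have h2 := ex_equiv (Equiv.funUnique Unit κ) (fun k => if P k then (1 : ℝ) else 0)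
  refine h1.trans (Eq.trans ?_ h2)
  congr 1
  exact Subsingleton.elim _ _

theorem pr_coin [NeZero R] [NeZero s] (v : V) : pr (fun ω : Cs V R s => coin ω v) = 1 / R := by
  have h := pr_coord (κ := Fin R × Fin s) v (fun k => (k.1 : ℕ) = 0)
  have hs : (s : ℝ) ≠ 0 := by exact_mod_cast NeZero.ne s
  have hR : (R : ℝ) ≠ 0 := by exact_mod_cast NeZero.ne R
  refine h.trans ?_
  unfold pr
  have e : ∀ inst : DecidablePred (fun k : Fin R × Fin s => (k.1 : ℕ) = 0),
      @Finset.filter _ (fun k : Fin R × Fin s => (k.1 : ℕ) = 0) inst univ =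
        ({⟨0, NeZero.pos R⟩} : Finset (Fin R)) ×ˢ univ := by
    intro inst
    ext k
    simp only [mem_filter, mem_univ, true_and, mem_product, mem_singleton, and_true]
    constructor
    · intro h
      exact Fin.ext h
    · intro h
      rw [h]
  rw [e, card_product, card_singleton, one_mul, card_univ, Fintype.card_prod, Fintype.card_fin, Fintype.card_fin]
  push_cast
  field_simp

theorem pr_coin_lab [NeZero R] [NeZero s] (v : V) (α : Fin s) :
    pr (fun ω : Cs V R s => coin ω v ∧ lab ω v = α) = 1 / (R * s) := by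
  have h := pr_coord (κ := Fin R × Fin s) v (fun k => (k.1 : ℕ) = 0 ∧ k.2 = α)
  have hs : (s : ℝ) ≠ 0 := by exact_mod_cast NeZero.ne s
  have hR : (R : ℝ) ≠ 0 := by exact_mod_cast NeZero.ne R
  refine h.trans ?_
  unfold pr
  have e : ∀ inst : DecidablePred (fun k : Fin R × Fin s => (k.1 : ℕ) = 0 ∧ k.2 = α),
      @Finset.filter _ (fun k : Fin R × Fin s => (k.1 : ℕ) = 0 ∧ k.2 = α) inst univ =
        {(⟨0, NeZero.pos R⟩, α)} := by
    intro inst
    ext k
    simp only [mem_filter, mem_univ, true_and, mem_singleton]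
    constructor
    · intro h
      exact Prod.ext (Fin.ext h.1) h.2
    · intro h
      rw [h]
      exact ⟨rfl, rfl⟩
  rw [e, card_singleton, Fintype.card_prod, Fintype.card_fin, Fintype.card_fin]
  push_cast
  rfl

theorem loc_coin (v : V) : Loc (fun ω : Cs V R s => coin ω v) {v} := by
  intro ω ω' h
  show (((ω v).1 : ℕ) = 0) = (((ω' v).1 : ℕ) = 0)
  rw [h v (mem_singleton_self _)]

theorem loc_lab (v : V) : Loc (fun ω : Cs V R s => lab ω v) {v} := by
  intro ω ω' h
  show (ω v).2 = (ω' v).2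
  rw [h v (mem_singleton_self _)]

/-! ## Bounded differences of local sums -/

/-- `z` and its neighbours -/
noncomputable def nb (G : SimpleGraph V) (z : V) : Finset V := univ.filter fun x => x = z ∨ G.Adj z x

theorem mem_nb {G : SimpleGraph V} {z x : V} : x ∈ nb G z ↔ x = z ∨ G.Adj z x := by
  unfold nb
  rw [mem_filter]
  exact ⟨fun h => h.2, fun h => ⟨mem_univ _, h⟩⟩

theorem nb_symm {G : SimpleGraph V} {z x : V} (h : x ∈ nb G z) : z ∈ nb G x := by
  rw [mem_nb] at h ⊢
  rcases h with h | h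
  · exact Or.inl h.symm
  · exact Or.inr h.symm

theorem nb_card (G : SimpleGraph V) (Δ : ℕ) (hG : Reg G Δ) (z : V) : (nb G z).card ≤ Δ + 1 := by
  have h : nb G z ⊆ insert z (univ.filter fun x => G.Adj z x) := by
    intro x hx
    rw [mem_nb] at hx
    rw [mem_insert, mem_filter]
    rcases hx with h | h
    · exact Or.inl h
    · exact Or.inr ⟨mem_univ _, h⟩
  refine (card_le_card h).trans ((card_insert_le _ _).trans ?_)
  rw [hG z]

theorem nb_sq (G : SimpleGraph V) (Δ : ℕ) (hG : Reg G Δ) (f : V → ℝ) :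
    ∑ z, (∑ x ∈ nb G z, f x) ^ 2 ≤ ((Δ : ℝ) + 1) ^ 2 * ∑ x, f x ^ 2 := by
  have h1 : ∀ z, (∑ x ∈ nb G z, f x) ^ 2 ≤ ((Δ : ℝ) + 1) * ∑ x ∈ nb G z, f x ^ 2 := by
    intro z
    refine sq_sum_le_card_mul_sum_sq.trans ?_
    refine mul_le_mul_of_nonneg_right ?_ (sum_nonneg fun x _ => sq_nonneg _)
    exact_mod_cast nb_card G Δ hG z
  refine (sum_le_sum fun z _ => h1 z).trans ?_
  rw [← mul_sum, sq, mul_assoc]
  refine mul_le_mul_of_nonneg_left ?_ (by positivity)
  have h2 : ∀ z, ∑ x ∈ nb G z, f x ^ 2 = ∑ x, if x ∈ nb G z then f x ^ 2 else 0 := by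
    intro z
    rw [sum_ite_mem, univ_inter]
  rw [sum_congr rfl fun z _ => h2 z, sum_comm, mul_sum]
  refine sum_le_sum fun x _ => ?_
  have h3 : ∀ z, (if x ∈ nb G z then f x ^ 2 else 0) = if z ∈ nb G x then f x ^ 2 else 0 := by
    intro z
    by_cases h : x ∈ nb G z
    · rw [if_pos h, if_pos (nb_symm h)]
    · rw [if_neg h, if_neg (fun h' => h (nb_symm h'))]
  rw [sum_congr rfl fun z _ => h3 z, sum_ite_mem, univ_inter, sum_const, nsmul_eq_mul]
  refine mul_le_mul_of_nonneg_right ?_ (sq_nonneg _)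
  exact_mod_cast nb_card G Δ hG x

/-- bounded differences of a sum of local indicators -/
theorem bd_sum (G : SimpleGraph V) (f : V → ℝ) (hf : ∀ x, 0 ≤ f x) (T : Cs V R s → V → Prop)
    (hT : ∀ z (ω : Cs V R s) k l x, x ∉ nb G z → (T (Function.update ω z k) x ↔ T (Function.update ω z l) x)) :
    BD (fun ω => ∑ x, if T ω x then f x else 0) (fun z => ∑ x ∈ nb G z, f x) := by
  intro z ω k l
  rw [← sum_sub_distrib]
  refine (abs_sum_le_sum_abs _ _).trans ?_
  have h1 : ∀ x, |(if T (Function.update ω z k) x then f x else 0) -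
      (if T (Function.update ω z l) x then f x else 0)| ≤ if x ∈ nb G z then f x else 0 := by
    intro x
    by_cases hx : x ∈ nb G z
    · rw [if_pos hx]
      have := hf x
      split_ifs
      · rw [sub_self, abs_zero]; exact this
      · rw [sub_zero, abs_of_nonneg this]
      · rw [zero_sub, abs_neg, abs_of_nonneg this]
      · rw [sub_self, abs_zero]; exact this
    · rw [if_neg hx]
      have h := hT z ω k l x hx
      by_cases h' : T (Function.update ω z k) x
      · rw [if_pos h', if_pos (h.1 h'), sub_self, abs_zero]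
      · rw [if_neg h', if_neg (fun h'' => h' (h.2 h'')), sub_self, abs_zero]
  refine (sum_le_sum fun x _ => h1 x).trans (le_of_eq ?_)
  rw [sum_ite_mem, univ_inter]

/-- bounded differences of a bilinear sum of local indicators -/
theorem bd_sum2 (G : SimpleGraph V) (h : V → V → ℝ) (hh : ∀ x y, 0 ≤ h x y) (T T' : Cs V R s → V → Prop)
    (hT : ∀ z (ω : Cs V R s) k l x, x ∉ nb G z → (T (Function.update ω z k) x ↔ T (Function.update ω z l) x))
    (hT' : ∀ z (ω : Cs V R s) k l x, x ∉ nb G z →
      (T' (Function.update ω z k) x ↔ T' (Function.update ω z l) x)) :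
    BD (fun ω => ∑ x, ∑ y, if T ω x ∧ T' ω y then h x y else 0)
      (fun z => (∑ x ∈ nb G z, ∑ y, h x y) + ∑ y ∈ nb G z, ∑ x, h x y) := by
  intro z ω k l
  rw [← sum_sub_distrib]
  refine (abs_sum_le_sum_abs _ _).trans ?_
  have h1 : ∀ x y, |(if T (Function.update ω z k) x ∧ T' (Function.update ω z k) y then h x y else 0) -
      (if T (Function.update ω z l) x ∧ T' (Function.update ω z l) y then h x y else 0)| ≤
      (if x ∈ nb G z then h x y else 0) + (if y ∈ nb G z then h x y else 0) := by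
    intro x y
    have h0 := hh x y
    have hb : |(if T (Function.update ω z k) x ∧ T' (Function.update ω z k) y then h x y else 0) -
      (if T (Function.update ω z l) x ∧ T' (Function.update ω z l) y then h x y else 0)| ≤ h x y := by
      split_ifs
      · rw [sub_self, abs_zero]; exact h0
      · rw [sub_zero, abs_of_nonneg h0]
      · rw [zero_sub, abs_neg, abs_of_nonneg h0]
      · rw [sub_self, abs_zero]; exact h0
    by_cases hx : x ∈ nb G z
    · rw [if_pos hx]
      refine hb.trans ?_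
      split_ifs <;> linarith
    · by_cases hy : y ∈ nb G z
      · rw [if_pos hy]
        refine hb.trans ?_
        split_ifs <;> linarith
      · rw [if_neg hx, if_neg hy]
        have e1 := hT z ω k l x hx
        have e2 := hT' z ω k l y hy
        have e3 : (T (Function.update ω z k) x ∧ T' (Function.update ω z k) y) ↔
            (T (Function.update ω z l) x ∧ T' (Function.update ω z l) y) := and_congr e1 e2
        by_cases h' : T (Function.update ω z k) x ∧ T' (Function.update ω z k) y
        · rw [if_pos h', if_pos (e3.1 h')]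
          simp
        · rw [if_neg h', if_neg (fun h'' => h' (e3.2 h''))]
          simp
  have h2 : ∀ x, |(∑ y, if T (Function.update ω z k) x ∧ T' (Function.update ω z k) y then h x y else 0) -
      (∑ y, if T (Function.update ω z l) x ∧ T' (Function.update ω z l) y then h x y else 0)| ≤
      ∑ y, ((if x ∈ nb G z then h x y else 0) + (if y ∈ nb G z then h x y else 0)) := by
    intro x
    rw [← sum_sub_distrib]
    exact (abs_sum_le_sum_abs _ _).trans (sum_le_sum fun y _ => h1 x y)
  refine (sum_le_sum fun x _ => h2 x).trans (le_of_eq ?_)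
  simp only [sum_add_distrib]
  congr 1
  · have e : ∀ x, (∑ y, if x ∈ nb G z then h x y else 0) = if x ∈ nb G z then ∑ y, h x y else 0 := by
      intro x
      by_cases hx : x ∈ nb G z
      · simp only [if_pos hx]
      · simp only [if_neg hx, sum_const_zero]
    rw [sum_congr rfl fun x _ => e x, sum_ite_mem, univ_inter]
  · rw [sum_comm]
    have e : ∀ y, (∑ x, if y ∈ nb G z then h x y else 0) = if y ∈ nb G z then ∑ x, h x y else 0 := by
      intro y
      by_cases hy : y ∈ nb G z
      · simp only [if_pos hy]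
      · simp only [if_neg hy, sum_const_zero]
    rw [sum_congr rfl fun y _ => e y, sum_ite_mem, univ_inter]

/-- the sum of the squares of the differences -/
theorem bd_sq1 (G : SimpleGraph V) (Δ : ℕ) (hG : Reg G Δ) (f : V → ℝ) (a : ℝ) (ha : ∑ x, f x ^ 2 ≤ a) :
    ∑ z, (∑ x ∈ nb G z, f x) ^ 2 ≤ ((Δ : ℝ) + 1) ^ 2 * a := by
  exact (nb_sq G Δ hG f).trans (mul_le_mul_of_nonneg_left ha (by positivity))

theorem bd_sq2 (G : SimpleGraph V) (Δ : ℕ) (hG : Reg G Δ) (f g : V → ℝ) (a : ℝ) (ha : ∑ x, f x ^ 2 ≤ a)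
    (ha' : ∑ x, g x ^ 2 ≤ a) :
    ∑ z, ((∑ x ∈ nb G z, f x) + ∑ x ∈ nb G z, g x) ^ 2 ≤ 4 * (((Δ : ℝ) + 1) ^ 2 * a) := by
  have h1 := (nb_sq G Δ hG f).trans (mul_le_mul_of_nonneg_left ha (by positivity))
  have h2 := (nb_sq G Δ hG g).trans (mul_le_mul_of_nonneg_left ha' (by positivity))
  have h3 : ∀ z, ((∑ x ∈ nb G z, f x) + ∑ x ∈ nb G z, g x) ^ 2 ≤ 2 * (∑ x ∈ nb G z, f x) ^ 2 + 2 * (∑ x ∈ nb G z, g x) ^ 2 := by
    intro z
    nlinarith [sq_nonneg ((∑ x ∈ nb G z, f x) - ∑ x ∈ nb G z, g x)]
  refine (sum_le_sum fun z _ => h3 z).trans ?_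
  rw [sum_add_distrib, ← mul_sum, ← mul_sum]
  linarith

end

end Pool.Agent.H12.LN
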