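import Pool.Agent.H12.LN.R0

/-!
MP_b8729f, project LN, section V3 (helper12): sizes of `Es`, probabilities of `Rs`, means.
-/

set_option autoImplicit false
set_option linter.unusedSectionVars false

namespace Pool.Agent.H12.LN

open Finset Classical
open Pool.Agent.H65.GI Pool.Agent.H2.LN

/-- what is used of the parameters -/
theorem pm_pow {N Δ : ℕ} (h : Pm N Δ) {k : ℕ} (hk : k ≤ 40000) : N ^ k ≤ Δ := by
  have hN : 1 ≤ N := le_trans (by norm_num) h.big
  exact (Nat.pow_le_pow_right hN hk).trans h.pow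

theorem pm_two {N Δ : ℕ} (h : Pm N Δ) : 2 ≤ N := le_trans (by norm_num) h.big

section
variable {V : Type} [Fintype V] {G : SimpleGraph V} {N Δ s : ℕ} {χ : V → Ty N} {D : Finset V} {H : Ty N → V → Finset V}
  {cl : Fin s → Ty N} {crd : Fin s → Fin (k0 N)} {M : Fin s → V → V} {z : Fin (k0 N)}

theorem gap_ge (hPm : Pm N Δ) (hB : Base G N Δ s χ D H cl crd M z) : s + N ^ 50 ≤ Δ := by
  have h1 := hB.sle
  have h2 : N ^ 100 ≤ Δ := pm_pow hPm (by norm_num)
  have hN : (0 : ℝ) < (N : ℝ) ^ 50 := by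
    have := pm_two hPm
    positivity
  have h3 : ((N : ℝ) ^ 50) * (N : ℝ) ^ 50 ≤ Δ := by
    rw [← pow_add]
    exact_mod_cast h2
  have h4 : (N : ℝ) ^ 50 ≤ Δ / N ^ 50 := by
    rw [le_div_iff₀ hN]
    exact h3
  have h5 : ((s + N ^ 50 : ℕ) : ℝ) ≤ Δ := by
    push_cast
    linarith
  exact_mod_cast h5

theorem gap_frac (hB : Base G N Δ s χ D H cl crd M z) (hPm : Pm N Δ) : (Δ : ℝ) ≤ N ^ 50 * ((Δ - s : ℕ) : ℝ) := by
  have h1 := hB.sle
  have hN : (0 : ℝ) < (N : ℝ) ^ 50 := by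
    have := pm_two hPm
    positivity
  have hs : s ≤ Δ := by
    have := gap_ge hPm hB
    have h0 : 0 ≤ N ^ 50 := Nat.zero_le _
    omega
  rw [Nat.cast_sub hs, ← div_le_iff₀' hN]
  linarith

theorem s_ge (hB : Base G N Δ s χ D H cl crd M z) (hPm : Pm N Δ) : (Δ : ℝ) ≤ 2 * s := by
  have h1 := hB.sge
  have hN : (1 : ℝ) ≤ (N : ℝ) ^ 49 := by
    have := pm_two hPm
    exact one_le_pow₀ (by exact_mod_cast (by omega : 1 ≤ N))
  have h2 : (Δ : ℝ) / N ^ 49 ≤ Δ := div_le_self (Nat.cast_nonneg _) hN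
  linarith

theorem wc_card {p : ℕ} (c : V → ℕ) (v : V) (hp : 1 ≤ p) :
    (univ.filter fun α : Fin s => Wc p c α v).card ≤ 2 * p - 1 := by
  have h1 : (univ.filter fun α : Fin s => Wc p c α v).card ≤ (Ico (c v + 1 - p) (c v + p)).card := by
    refine card_le_card_of_injOn (fun α : Fin s => (α : ℕ)) ?_ ?_
    · intro α hα
      have h := (mem_filter.1 (mem_coe.1 hα)).2
      unfold Wc at h
      change (α : ℕ) ∈ ((Ico (c v + 1 - p) (c v + p) : Finset ℕ) : Set ℕ)
      rw [mem_coe, mem_Ico]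
      omega
    · intro α _ β _ h
      exact Fin.ext h
  rw [Nat.card_Ico] at h1
  omega

theorem es_card (hPm : Pm N Δ) (hReg : Reg G Δ) (hB : Base G N Δ s χ D H cl crd M z) {p : ℕ} (hp : 1 ≤ p) (hpN : p ≤ N)
    (c : V → ℕ) (hW : ∀ v, (univ.filter (fun α : Fin s => Wc p c α (M α v))).card ≤ N ^ 20) (v : V) :
    (Es G p c M v).card ≤ 2 * (Δ - s) := by
  obtain ⟨U, hU⟩ : ∃ U, U = univ.filter (fun α : Fin s => M α v ≠ v ∧ ¬ Wc p c α v ∧ ¬ Wc p c α (M α v)) := ⟨_, rfl⟩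
  have h1 : (Es G p c M v).card + U.card ≤ Δ := by
    have hinj : (U.image fun α => M α v).card = U.card := by
      refine card_image_of_injOn ?_
      intro α hα β hβ hαβ
      by_contra hne
      rw [mem_coe, hU, mem_filter] at hα
      exact hB.dis α β v hne hα.2.1 hαβ
    rw [← hinj, ← hReg v, ← card_union_of_disjoint]
    · refine card_le_card ?_
      intro u hu
      rcases mem_union.1 hu with h | h
      · unfold Es at h
        rw [mem_filter] at h ⊢
        exact ⟨h.1, h.2.1⟩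
      · obtain ⟨α, hα, rfl⟩ := mem_image.1 h
        rw [hU, mem_filter] at hα
        rw [mem_filter]
        exact ⟨mem_univ _, (hB.adj α v hα.2.1).1⟩
    · rw [disjoint_left]
      intro u hu hu'
      obtain ⟨α, hα, rfl⟩ := mem_image.1 hu'
      rw [hU, mem_filter] at hα
      unfold Es at hu
      rw [mem_filter] at hu
      rcases hu.2.2 α rfl with h | h
      · exact hα.2.2.1 h
      · exact hα.2.2.2 h
  have h2 : s ≤ U.card + (1 + ((2 * p - 1) + N ^ 20)) := by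
    have h3 : (univ : Finset (Fin s)) ⊆ U ∪ ((univ.filter fun α => M α v = v) ∪
        ((univ.filter fun α => Wc p c α v) ∪ (univ.filter fun α : Fin s => Wc p c α (M α v)))) := by
      intro α _
      rw [mem_union, mem_union, mem_union, hU, mem_filter, mem_filter, mem_filter, mem_filter]
      by_cases a1 : M α v = v
      · exact Or.inr (Or.inl ⟨mem_univ _, a1⟩)
      · by_cases a2 : Wc p c α v
        · exact Or.inr (Or.inr (Or.inl ⟨mem_univ _, a2⟩))
        · by_cases a3 : Wc p c α (M α v)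
          · exact Or.inr (Or.inr (Or.inr ⟨mem_univ _, a3⟩))
          · exact Or.inl ⟨mem_univ _, a1, a2, a3⟩
    have h4 := card_le_card h3
    rw [card_univ, Fintype.card_fin] at h4
    refine h4.trans ((card_union_le _ _).trans (Nat.add_le_add_left ((card_union_le _ _).trans
      (Nat.add_le_add (hB.on v) ((card_union_le _ _).trans (Nat.add_le_add (wc_card c v hp) (hW v))))) _))
  have h5 := gap_ge hPm hB
  have h6 : 2 * N + N ^ 20 ≤ N ^ 50 := by
    have hN := pm_two hPm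
    have a1 : N ^ 20 * 4 ≤ N ^ 50 := by
      have : N ^ 50 = N ^ 20 * N ^ 30 := by rw [← pow_add]
      rw [this]
      refine Nat.mul_le_mul_left _ ?_
      calc 4 = 2 ^ 2 := by norm_num
        _ ≤ N ^ 2 := Nat.pow_le_pow_left hN 2
        _ ≤ N ^ 30 := Nat.pow_le_pow_right (by omega) (by norm_num)
    have a2 : N ≤ N ^ 20 := Nat.le_self_pow (by norm_num) N
    omega
  omega

/-- the random set -/
noncomputable def Rn {R : ℕ} (ω : Cs V R s) : Finset V := univ.filter (coin ω)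

theorem mem_Rn {R : ℕ} (ω : Cs V R s) (v : V) : v ∈ Rn ω ↔ coin ω v := by
  unfold Rn
  rw [mem_filter]
  exact ⟨fun h => h.2, fun h => ⟨mem_univ _, h⟩⟩

/-- the event `x ∈ Res_α` -/
def TR {R : ℕ} (G : SimpleGraph V) (p : ℕ) (c : V → ℕ) (D : Finset V) (M : Fin s → V → V) (α : Fin s) (ω : Cs V R s) (x : V) :
    Prop := Rs G p c D M (Rn ω) (lab ω) α x

/-- the event `x ∈ Rc`, `M α x ∈ Rc` -/
def TM {R : ℕ} (M : Fin s → V → V) (α : Fin s) (ω : Cs V R s) (y : V) : Prop :=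
  y ∈ Rn ω ∧ M α y ∈ Rn ω ∧ M α y ≠ y

theorem mem_nb_M (hB : Base G N Δ s χ D H cl crd M z) (α : Fin s) (x : V) : M α x ∈ nb G x := by
  rw [mem_nb]
  by_cases h : M α x = x
  · exact Or.inl h
  · exact Or.inr (hB.adj α x h).1

theorem loc_TR {R : ℕ} (hB : Base G N Δ s χ D H cl crd M z) (p : ℕ) (c : V → ℕ) (α : Fin s) (x : V) :
    Loc (fun ω : Cs V R s => TR G p c D M α ω x) (nb G x) := by
  have key : ∀ ω ω' : Cs V R s, (∀ i ∈ nb G x, ω i = ω' i) → TR G p c D M α ω x → TR G p c D M α ω' x := by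
    intro ω ω' h ht
    have hc : ∀ y ∈ nb G x, (coin ω y ↔ coin ω' y) := by
      intro y hy
      unfold coin
      rw [h y hy]
    have hx : x ∈ nb G x := mem_nb.2 (Or.inl rfl)
    unfold TR Rs at ht ⊢
    refine ⟨?_, ?_, ht.2.2.1, ?_, ?_⟩
    · rw [mem_Rn]
      exact (hc x hx).1 ((mem_Rn ω x).1 ht.1)
    · unfold lab at ht ⊢
      rw [← h x hx]
      exact ht.2.1
    · intro u hu hu'
      refine ht.2.2.2.1 u hu ?_
      rw [mem_Rn] at hu' ⊢
      refine (hc u ?_).2 hu'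
      unfold Es at hu
      rw [mem_filter] at hu
      exact mem_nb.2 (Or.inr hu.2.1)
    · intro hu'
      refine ht.2.2.2.2 ?_
      rw [mem_Rn] at hu' ⊢
      exact (hc _ (mem_nb_M hB α x)).2 hu'
  intro ω ω' h
  exact propext ⟨key ω ω' h, key ω' ω (fun i hi => (h i hi).symm)⟩

theorem loc_TM {R : ℕ} (hB : Base G N Δ s χ D H cl crd M z) (α : Fin s) (x : V) :
    Loc (fun ω : Cs V R s => TM M α ω x) (nb G x) := by
  have key : ∀ ω ω' : Cs V R s, (∀ i ∈ nb G x, ω i = ω' i) → TM M α ω x → TM M α ω' x := by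
    intro ω ω' h ht
    have hc : ∀ y ∈ nb G x, (coin ω y ↔ coin ω' y) := by
      intro y hy
      unfold coin
      rw [h y hy]
    refine ⟨?_, ?_, ht.2.2⟩
    · rw [mem_Rn]
      exact (hc x (mem_nb.2 (Or.inl rfl))).1 ((mem_Rn ω x).1 ht.1)
    · rw [mem_Rn]
      exact (hc _ (mem_nb_M hB α x)).1 ((mem_Rn ω _).1 ht.2.1)
  intro ω ω' h
  exact propext ⟨key ω ω' h, key ω' ω (fun i hi => (h i hi).symm)⟩

/-- the condition of `bd_sum` from locality -/
theorem hT_of_loc {R : ℕ} (T : Cs V R s → V → Prop) (hT : ∀ x, Loc (fun ω => T ω x) (nb G x)) :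
    ∀ z (ω : Cs V R s) k l x, x ∉ nb G z → (T (Function.update ω z k) x ↔ T (Function.update ω z l) x) := by
  intro z ω k l x hx
  have hz : z ∉ nb G x := fun h => hx (nb_symm h)
  have h : ∀ i ∈ nb G x, Function.update ω z k i = Function.update ω z l i := by
    intro i hi
    have hiz : i ≠ z := fun h => hz (h ▸ hi)
    rw [Function.update_of_ne hiz, Function.update_of_ne hiz]
  exact iff_of_eq (hT x _ _ h)

/-! ## Probabilities -/

section
variable {R : ℕ} [NeZero R] [NeZero s]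

theorem pr_and {I κ : Type} [Fintype I] [Fintype κ] [Nonempty κ] (A B : (I → κ) → Prop)
    (S T : Finset I) (hA : Loc A S) (hB : Loc B T) (hd : Disjoint S T) :
    pr (fun ω => A ω ∧ B ω) = pr A * pr B := by
  rw [ex_ind, ex_ind A, ex_ind B, ← ex_mul _ _ S T (fun ω ω' h => by simp only [hA ω ω' h])
    (fun ω ω' h => by simp only [hB ω ω' h]) hd]
  congr 1
  funext ω
  by_cases h1 : A ω <;> by_cases h2 : B ω <;> simp [h1, h2]

theorem loc_cl (v : V) (α : Fin s) : Loc (fun ω : Cs V R s => coin ω v ∧ lab ω v = α) {v} := by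
  intro ω ω' h
  show ((((ω v).1 : ℕ) = 0) ∧ (ω v).2 = α) = ((((ω' v).1 : ℕ) = 0) ∧ (ω' v).2 = α)
  rw [h v (mem_singleton_self _)]

/-- coin and label at `e u` -/
def CLe {V : Type} {R s : ℕ} (e : V → V) (α : Fin s) (u : V) (ω : Cs V R s) : Prop := coin ω (e u) ∧ lab ω (e u) = α

theorem pr_TR_le (p : ℕ) (c : V → ℕ) (α : Fin s) (x : V) :
    pr (fun ω : Cs V R s => TR G p c D M α ω x) ≤ 1 / (R * s) := by
  rw [← pr_coin_lab x α]
  exact pr_mono fun ω h => ⟨(mem_Rn ω x).1 h.1, h.2.1⟩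

theorem pr_TR_ge (hPm : Pm N Δ) (hReg : Reg G Δ) (hB : Base G N Δ s χ D H cl crd M z) {p : ℕ} (hp : 1 ≤ p) (hpN : p ≤ N)
    (c : V → ℕ) (hW : ∀ v, (univ.filter (fun α : Fin s => Wc p c α (M α v))).card ≤ N ^ 20) (hR : R = 16 * (Δ - s))
    (α : Fin s) (x : V) (hx : Gd p c D M α x) :
    1 / (R * s) / 2 ≤ pr (fun ω : Cs V R s => TR G p c D M α ω x) := by
  have h1 : pr (fun ω : Cs V R s => (coin ω x ∧ lab ω x = α) ∧ ¬ ∃ u ∈ insert (M α x) (Es G p c M x), coin ω u) ≤
      pr (fun ω : Cs V R s => TR G p c D M α ω x) := by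
    refine pr_mono fun ω h => ?_
    obtain ⟨⟨a1, a2⟩, a3⟩ := h
    refine ⟨(mem_Rn ω x).2 a1, a2, hx, ?_, ?_⟩
    · intro u hu hu'
      exact a3 ⟨u, mem_insert_of_mem hu, (mem_Rn ω u).1 hu'⟩
    · intro hu'
      exact a3 ⟨_, mem_insert_self _ _, (mem_Rn ω _).1 hu'⟩
  refine le_trans ?_ h1
  have hloc : Loc (fun ω : Cs V R s => ¬ ∃ u ∈ insert (M α x) (Es G p c M x), coin ω u) (insert (M α x) (Es G p c M x)) := by
    intro ω ω' h
    have key : ∀ ω ω' : Cs V R s, (∀ i ∈ insert (M α x) (Es G p c M x), ω i = ω' i) →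
        (∃ u ∈ insert (M α x) (Es G p c M x), coin ω u) → ∃ u ∈ insert (M α x) (Es G p c M x), coin ω' u := by
      rintro ω ω' h ⟨u, hu, hc⟩
      refine ⟨u, hu, ?_⟩
      unfold coin at hc ⊢
      rw [← h u hu]
      exact hc
    exact propext (not_congr ⟨key ω ω' h, key ω' ω (fun i hi => (h i hi).symm)⟩)
  have hdis : Disjoint ({x} : Finset V) (insert (M α x) (Es G p c M x)) := by
    rw [disjoint_singleton_left, mem_insert, not_or]
    refine ⟨Ne.symm hx.2.2.1, ?_⟩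
    intro h
    unfold Es at h
    rw [mem_filter] at h
    exact h.2.1.ne rfl
  rw [pr_and _ _ _ _ (loc_cl x α) hloc hdis, pr_coin_lab, pr_not]
  have hRpos : (0 : ℝ) < R := by exact_mod_cast NeZero.pos R
  have hspos : (0 : ℝ) < s := by exact_mod_cast NeZero.pos s
  have h2 : pr (fun ω : Cs V R s => ∃ u ∈ insert (M α x) (Es G p c M x), coin ω u) ≤ 1 / 2 := by
    refine (pr_ex _ (fun u (ω : Cs V R s) => coin ω u) (1 / R) (fun u _ => (pr_coin u).le)).trans ?_
    have h3 : ((insert (M α x) (Es G p c M x)).card : ℝ) ≤ R / 2 := by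
      have h4 : (insert (M α x) (Es G p c M x)).card ≤ 2 * (Δ - s) + 1 :=
        (card_insert_le _ _).trans (Nat.add_le_add_right (es_card hPm hReg hB hp hpN c hW x) 1)
      have h5 : 1 ≤ Δ - s := by
        have := gap_ge hPm hB
        have h6 : 1 ≤ N ^ 50 := Nat.one_le_pow _ _ (by have := pm_two hPm; omega)
        omega
      have h6 : 2 * (insert (M α x) (Es G p c M x)).card ≤ R := by
        rw [hR]
        omega
      have h7 : (2 : ℝ) * ((insert (M α x) (Es G p c M x)).card : ℝ) ≤ R := by exact_mod_cast h6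
      linarith
    calc ((insert (M α x) (Es G p c M x)).card : ℝ) * (1 / R) ≤ R / 2 * (1 / R) := by gcongr
      _ = 1 / 2 := by field_simp
  have h3 : (0 : ℝ) ≤ 1 / (R * s) := by positivity
  nlinarith

theorem pr_TM_le (α : Fin s) (x : V) :
    pr (fun ω : Cs V R s => TM M α ω x) ≤ (1 / R) ^ 2 := by
  by_cases hx : M α x = x
  · have : pr (fun ω : Cs V R s => TM M α ω x) = 0 := by
      unfold pr
      have : (univ.filter fun ω : Cs V R s => TM M α ω x) = ∅ := by
        rw [filter_eq_empty_iff]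
        intro ω _ h
        exact h.2.2 hx
      rw [this]
      simp
    rw [this]
    positivity
  · have h1 : pr (fun ω : Cs V R s => TM M α ω x) ≤ pr (fun ω : Cs V R s => coin ω x ∧ coin ω (M α x)) :=
      pr_mono fun ω h => ⟨(mem_Rn ω _).1 h.1, (mem_Rn ω _).1 h.2.1⟩
    refine h1.trans ?_
    rw [pr_and _ _ _ _ (loc_coin x) (loc_coin (M α x)) (by rw [disjoint_singleton]; exact Ne.symm hx), pr_coin, pr_coin, sq]

theorem pr_TRM_le (p : ℕ) (c : V → ℕ) (α : Fin s) (x y : V) (hxy : x ≠ y) :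
    pr (fun ω : Cs V R s => TR G p c D M α ω x ∧ TM M α ω y) ≤ 1 / (R * s) * (1 / R) := by
  have h1 : pr (fun ω : Cs V R s => TR G p c D M α ω x ∧ TM M α ω y) ≤
      pr (fun ω : Cs V R s => (coin ω x ∧ lab ω x = α) ∧ coin ω y) :=
    pr_mono fun ω h => ⟨⟨(mem_Rn ω x).1 h.1.1, h.1.2.1⟩, (mem_Rn ω y).1 h.2.1⟩
  refine h1.trans ?_
  rw [pr_and _ _ _ _ (loc_cl x α) (loc_coin y) (by rw [disjoint_singleton]; exact hxy), pr_coin_lab, pr_coin]

/-! ## Means -/

theorem ex_ite_mul {Ω : Type} [Fintype Ω] (A : Ω → Prop) (a : ℝ) : ex (fun ω => if A ω then a else 0) = pr A * a := by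
  rw [ex_ind, mul_comm, ← ex_smul]
  congr 1
  funext ω
  by_cases h : A ω <;> simp [h]

theorem mean_sum {Ω : Type} [Fintype Ω] (T : Ω → V → Prop) (f : V → ℝ) :
    ex (fun ω => ∑ x, if T ω x then f x else 0) = ∑ x, pr (fun ω => T ω x) * f x := by
  rw [ex_sum univ (fun x (ω : Ω) => if T ω x then f x else 0)]
  exact sum_congr rfl fun x _ => ex_ite_mul _ _

theorem mean_sum2 {Ω : Type} [Fintype Ω] (T T' : Ω → V → Prop) (h : V → V → ℝ) :
    ex (fun ω => ∑ x, ∑ y, if T ω x ∧ T' ω y then h x y else 0) = ∑ x, ∑ y, pr (fun ω => T ω x ∧ T' ω y) * h x y := by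
  rw [ex_sum univ (fun x (ω : Ω) => ∑ y, if T ω x ∧ T' ω y then h x y else 0)]
  refine sum_congr rfl fun x _ => ?_
  rw [ex_sum univ (fun y (ω : Ω) => if T ω x ∧ T' ω y then h x y else 0)]
  refine sum_congr rfl fun y _ => ?_
  rw [← ex_ite_mul]
  congr 1
  funext ω
  by_cases h1 : T ω x ∧ T' ω y
  · rw [if_pos h1, if_pos h1]
  · rw [if_neg h1, if_neg h1]

end

end

end Pool.Agent.H12.LN
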