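import Pool.Agent.H12.LN.R1

/-!
MP_b8729f, project LN, section V3 (helper12): probabilities of the bad events.
-/

set_option autoImplicit false
set_option linter.unusedSectionVars false

namespace Pool.Agent.H12.LN

open Finset Classical
open Pool.Agent.H65.GI Pool.Agent.H2.LN

section
variable {V : Type} [Fintype V] {G : SimpleGraph V} {N Δ s : ℕ} {χ : V → Ty N} {D : Finset V} {H : Ty N → V → Finset V}
  {cl : Fin s → Ty N} {crd : Fin s → Fin (k0 N)} {M : Fin s → V → V} {z : Fin (k0 N)}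
  {R : ℕ} [NeZero R] [NeZero s]

/-- event (a) -/
theorem ev_a (hPm : Pm N Δ) (hReg : Reg G Δ) (hB : Base G N Δ s χ D H cl crd M z) (hR : R = 16 * (Δ - s)) (v : V) :
    pr (fun ω : Cs V R s => ¬ (univ.filter (fun u => G.Adj v u ∧ u ∈ Rn ω)).card ≤ N ^ 51) ≤ Real.exp (-(N : ℝ) ^ 5) := by
  have hRpos : (0 : ℝ) < R := by exact_mod_cast NeZero.pos R
  have hN := pm_two hPm
  have hN1 : (2 : ℝ) ≤ N := by exact_mod_cast hN
  have hμ : ∑ _u ∈ univ.filter (fun u => G.Adj v u), (1 / (R : ℝ)) ≤ (N : ℝ) ^ 50 / 16 := by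
    rw [sum_const, hReg v, nsmul_eq_mul]
    have h1 := gap_frac hB hPm
    have h2 : (R : ℝ) = 16 * ((Δ - s : ℕ) : ℝ) := by
      rw [hR]
      push_cast
      rfl
    rw [mul_one_div, div_le_iff₀ hRpos, h2]
    linarith
  have h := ch_up (univ.filter (fun u => G.Adj v u)) (fun u (ω : Cs V R s) => coin ω u) (fun u => {u})
    (fun u _ => loc_coin u) (fun u _ w _ huw => by rw [disjoint_singleton]; exact huw) (fun _ => 1 / (R : ℝ))
    (fun u _ => (pr_coin u).le) ((N : ℝ) ^ 50 / 16) ((N : ℝ) ^ 51 / 4) hμ (by positivity)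
  refine le_trans (pr_mono fun ω hω => ?_) (h.trans (Real.exp_le_exp.2 ?_))
  · push Not at hω
    have e : (univ.filter (fun u => G.Adj v u)).filter (fun u => coin ω u) = univ.filter (fun u => G.Adj v u ∧ u ∈ Rn ω) := by
      ext u
      simp only [mem_filter, mem_univ, true_and, mem_Rn]
    rw [e]
    have h1 : ((N ^ 51 : ℕ) : ℝ) ≤ ((univ.filter (fun u => G.Adj v u ∧ u ∈ Rn ω)).card : ℝ) := by exact_mod_cast hω.le
    push_cast at h1
    have h2 : (N : ℝ) ^ 50 ≤ (N : ℝ) ^ 51 := pow_le_pow_right₀ (by linarith) (by norm_num)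
    linarith
  · have h2 : (N : ℝ) ^ 5 * 4 ≤ (N : ℝ) ^ 51 := by
      have e : (N : ℝ) ^ 51 = N ^ 5 * N ^ 46 := by rw [← pow_add]
      rw [e]
      refine mul_le_mul_of_nonneg_left ?_ (by positivity)
      calc (4 : ℝ) = 2 ^ 2 := by norm_num
        _ ≤ (N : ℝ) ^ 2 := pow_le_pow_left₀ (by norm_num) hN1 2
        _ ≤ (N : ℝ) ^ 46 := pow_le_pow_right₀ (by linarith) (by norm_num)
    linarith

theorem exp4 : Real.exp 4 ≤ 64 := by
  have h := Real.exp_one_lt_d9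
  have h1 : Real.exp 4 = Real.exp 1 ^ 4 := by
    rw [← Real.exp_nat_mul]
    norm_num
  rw [h1]
  calc Real.exp 1 ^ 4 ≤ (2.72 : ℝ) ^ 4 := pow_le_pow_left₀ (Real.exp_pos _).le (by linarith) 4
    _ ≤ 64 := by norm_num

/-- one half of event (b) -/
theorem ev_b1 (hPm : Pm N Δ) (hB : Base G N Δ s χ D H cl crd M z) (hR : R = 16 * (Δ - s))
    (J : Finset V) (hJ : J.card ≤ Δ) (e : V → V) (he : ∀ u ∈ J, ∀ w ∈ J, e u = e w → u = w) (α : Fin s) :
    pr (fun ω : Cs V R s => N ^ 5 / 2 + 1 ≤ (J.filter (fun u => CLe e α u ω)).card) ≤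
      Real.exp (-(N : ℝ) ^ 5) / 2 := by
  have hRpos : (0 : ℝ) < R := by exact_mod_cast NeZero.pos R
  have hspos : (0 : ℝ) < s := by exact_mod_cast NeZero.pos s
  have hN := pm_two hPm
  have hN1 : (2 : ℝ) ≤ N := by exact_mod_cast hN
  have h := few_le J (fun u (ω : Cs V R s) => CLe e α u ω) (fun u => {e u})
    (fun u _ => loc_cl (e u) α) (fun u hu w hw huw => by
      rw [disjoint_singleton]
      exact fun h => huw (he u hu w hw h)) (1 / (R * s)) (by positivity) (fun u _ => (pr_coin_lab (e u) α).le) Δ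
    (N ^ 5 / 2 + 1) hJ
  refine h.trans ?_
  have h1 : (Δ : ℝ) * (1 / (R * s)) ≤ Real.exp (-4) := by
    have h2 := s_ge hB hPm
    have h3 := gap_ge hPm hB
    have h4 : N ^ 50 ≤ Δ - s := by omega
    have h5 : (N : ℝ) ^ 50 ≤ ((Δ - s : ℕ) : ℝ) := by exact_mod_cast h4
    have h6 : (64 : ℝ) ≤ (N : ℝ) ^ 50 := by
      calc (64 : ℝ) = 2 ^ 6 := by norm_num
        _ ≤ (N : ℝ) ^ 6 := pow_le_pow_left₀ (by norm_num) hN1 6
        _ ≤ (N : ℝ) ^ 50 := pow_le_pow_right₀ (by linarith) (by norm_num)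
    have h7 : (R : ℝ) = 16 * ((Δ - s : ℕ) : ℝ) := by
      rw [hR]
      push_cast
      rfl
    have h8 : (16 : ℝ) * 64 ≤ R := by
      rw [h7]
      linarith
    rw [mul_one_div, div_le_iff₀ (by positivity)]
    have h9 : Real.exp (-4) * 64 ≥ 1 := by
      have := mul_le_mul_of_nonneg_left exp4 (Real.exp_pos (-4)).le
      rw [← Real.exp_add] at this
      simpa using this
    calc (Δ : ℝ) ≤ 2 * s := h2
      _ ≤ (Real.exp (-4) * 64) * (2 * s) := by nlinarith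
      _ ≤ Real.exp (-4) * (R * s) := by
          have : (64 : ℝ) * 2 ≤ R := by linarith
          nlinarith [mul_le_mul_of_nonneg_left (mul_le_mul_of_nonneg_right this hspos.le) (Real.exp_pos (-4)).le]
  have h2 : (0 : ℝ) ≤ (Δ : ℝ) * (1 / (R * s)) := by positivity
  refine (pow_le_pow_left₀ h2 h1 _).trans ?_
  rw [← Real.exp_nat_mul]
  have h3 : (N : ℝ) ^ 5 / 2 ≤ ((N ^ 5 / 2 + 1 : ℕ) : ℝ) := by
    have h4 : N ^ 5 ≤ 2 * (N ^ 5 / 2 + 1) := by omega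
    have h5 : ((N ^ 5 : ℕ) : ℝ) ≤ ((2 * (N ^ 5 / 2 + 1) : ℕ) : ℝ) := by exact_mod_cast h4
    push_cast at h5 ⊢
    linarith
  have h4 : (1 : ℝ) ≤ (N : ℝ) ^ 5 := one_le_pow₀ (by linarith)
  have h5 : Real.exp (((N ^ 5 / 2 + 1 : ℕ) : ℝ) * -4) ≤ Real.exp (-(N : ℝ) ^ 5 - 1) := by
    refine Real.exp_le_exp.2 ?_
    linarith
  refine h5.trans ?_
  rw [Real.exp_sub, div_le_div_iff_of_pos_left (Real.exp_pos _) (Real.exp_pos _) (by norm_num)]
  have := Real.add_one_le_exp 1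
  linarith

/-- event (b) -/
theorem ev_b (hPm : Pm N Δ) (hReg : Reg G Δ) (hB : Base G N Δ s χ D H cl crd M z) (hR : R = 16 * (Δ - s)) (p : ℕ)
    (c : V → ℕ) (α : Fin s) (κ : Ty N) (v : V) :
    pr (fun ω : Cs V R s => ¬ ((H κ v).filter (fun u => TR G p c D M α ω u ∨ TR G p c D M α ω (M α u))).card ≤ N ^ 5) ≤
      Real.exp (-(N : ℝ) ^ 5) := by
  have hJ : (H κ v).card ≤ Δ := by
    rw [← hReg v]
    refine card_le_card fun u hu => ?_
    rw [mem_filter]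
    exact ⟨mem_univ _, (hB.Hadj κ u v hu).1⟩
  have h1 := ev_b1 hPm hB hR (R := R) (H κ v) hJ id (fun u _ w _ h => h) α
  have h2 := ev_b1 hPm hB hR (R := R) (H κ v) hJ (M α) (fun u _ w _ h => by
    have := congrArg (M α) h
    rwa [hB.inv, hB.inv] at this) α
  have h3 : pr (fun ω : Cs V R s => ¬ ((H κ v).filter (fun u => TR G p c D M α ω u ∨ TR G p c D M α ω (M α u))).card ≤ N ^ 5) ≤
      pr (fun ω : Cs V R s => N ^ 5 / 2 + 1 ≤ ((H κ v).filter (fun u => CLe id α u ω)).card ∨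
        N ^ 5 / 2 + 1 ≤ ((H κ v).filter (fun u => CLe (M α) α u ω)).card) := by
    refine pr_mono fun ω hω => ?_
    by_contra hcon
    push Not at hcon
    apply hω
    have h4 : (H κ v).filter (fun u => TR G p c D M α ω u ∨ TR G p c D M α ω (M α u)) ⊆
        (H κ v).filter (fun u => CLe id α u ω) ∪
        (H κ v).filter (fun u => CLe (M α) α u ω) := by
      intro u hu
      rw [mem_filter] at hu
      rw [mem_union, mem_filter, mem_filter]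
      rcases hu.2 with h | h
      · exact Or.inl ⟨hu.1, (mem_Rn ω u).1 h.1, h.2.1⟩
      · exact Or.inr ⟨hu.1, (mem_Rn ω _).1 h.1, h.2.1⟩
    have h5 := (card_le_card h4).trans (card_union_le _ _)
    omega
  have h4 := pr_or (fun ω : Cs V R s => N ^ 5 / 2 + 1 ≤ ((H κ v).filter (fun u => CLe id α u ω)).card)
    (fun ω : Cs V R s => N ^ 5 / 2 + 1 ≤ ((H κ v).filter (fun u => CLe (M α) α u ω)).card)
  linarith

/-- numbers for the sums of squares -/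
theorem num_sq (hPm : Pm N Δ) (K : ℝ) (k : ℕ) (hK : K ≤ N ^ 20) (hk : k ≤ 7) :
    (N : ℝ) ^ 5 * (2 * (K * (((Δ : ℝ) + 1) ^ 2 * (N ^ 3 / Δ ^ 12)))) ≤ 1 / (Δ : ℝ) ^ k := by
  have hN := pm_two hPm
  have hN1 : (2 : ℝ) ≤ N := by exact_mod_cast hN
  have h1 : N ^ 31 ≤ Δ := pm_pow hPm (by norm_num)
  have h2 : (N : ℝ) ^ 31 ≤ Δ := by exact_mod_cast h1
  have hN31 : (1 : ℝ) ≤ (N : ℝ) ^ 31 := one_le_pow₀ (by linarith)
  have hΔ : (1 : ℝ) ≤ Δ := hN31.trans h2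
  have h3 : ((Δ : ℝ) + 1) ^ 2 ≤ 4 * Δ ^ 2 := by nlinarith
  have h4 : (N : ℝ) ^ 5 * (2 * (K * (((Δ : ℝ) + 1) ^ 2 * (N ^ 3 / Δ ^ 12)))) ≤
      (N : ℝ) ^ 5 * (2 * (N ^ 20 * ((4 * Δ ^ 2) * (N ^ 3 / Δ ^ 12)))) := by gcongr
  refine h4.trans ?_
  rw [le_div_iff₀ (by positivity)]
  have e : (N : ℝ) ^ 5 * (2 * (N ^ 20 * ((4 * Δ ^ 2) * (N ^ 3 / Δ ^ 12)))) * Δ ^ k = (8 * N ^ 28) * Δ ^ (2 + k) / Δ ^ 12 := by
    rw [pow_add]
    field_simp
    ring
  rw [e, div_le_one (by positivity)]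
  have h5 : (8 : ℝ) * N ^ 28 ≤ Δ := by
    refine le_trans ?_ h2
    have e2 : (N : ℝ) ^ 31 = N ^ 3 * N ^ 28 := by rw [← pow_add]
    rw [e2]
    refine mul_le_mul_of_nonneg_right ?_ (by positivity)
    calc (8 : ℝ) = 2 ^ 3 := by norm_num
      _ ≤ (N : ℝ) ^ 3 := pow_le_pow_left₀ (by norm_num) hN1 3
  calc (8 * (N : ℝ) ^ 28) * Δ ^ (2 + k) ≤ Δ * Δ ^ (2 + k) := by gcongr
    _ = Δ ^ (3 + k) := by ring
    _ ≤ Δ ^ 12 := pow_le_pow_right₀ hΔ (by omega)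

theorem tail_le (B t x : ℝ) (hB : 0 < B) (h : x * (2 * B) ≤ t ^ 2) : Real.exp (-(t ^ 2 / (2 * B))) ≤ Real.exp (-x) := by
  refine Real.exp_le_exp.2 (neg_le_neg ?_)
  rw [le_div_iff₀ (by positivity)]
  exact h

theorem pN (hPm : Pm N Δ) (j : ℕ) (hj : j ≤ 800) : (j : ℝ) * 16 ≤ (N : ℝ) ^ 20 := by
  have h1 := hPm.big
  have h2 : (2 : ℝ) ^ 40 ≤ N := by exact_mod_cast h1
  have h3 : (N : ℝ) ≤ (N : ℝ) ^ 20 := le_self_pow₀ (by linarith [show (1 : ℝ) ≤ 2 ^ 40 by norm_num]) (by norm_num)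
  have h4 : (j : ℝ) ≤ 800 := by exact_mod_cast hj
  have h5 : (800 : ℝ) * 16 ≤ 2 ^ 40 := by norm_num
  linarith

/-- event (c), lower bound -/
theorem ev_c1 (hPm : Pm N Δ) (hReg : Reg G Δ) (hB : Base G N Δ s χ D H cl crd M z) {p : ℕ} (hp : 1 ≤ p) (hpN : p ≤ N)
    (c : V → ℕ) (hW : ∀ v, (univ.filter (fun α : Fin s => Wc p c α (M α v))).card ≤ N ^ 20) (hR : R = 16 * (Δ - s))
    (α : Fin s) (v : V) (f : V → ℝ) (hf : LinF G N Δ v f) :
    pr (fun ω : Cs V R s => ¬ (1 / (R * s : ℝ) / 2 * (∑ x, if Gd p c D M α x then f x else 0) - 1 / (Δ : ℝ) ^ 3 ≤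
      ∑ x, if TR G p c D M α ω x then f x else 0)) ≤ Real.exp (-(N : ℝ) ^ 5) := by
  have hΔ0 : (0 : ℝ) < Δ := by
    have h1 : N ^ 31 ≤ Δ := pm_pow hPm (by norm_num)
    have h2 : 1 ≤ N ^ 31 := Nat.one_le_pow _ _ (by have := pm_two hPm; omega)
    exact_mod_cast (by omega : 0 < Δ)
  have hN0 : (0 : ℝ) < N := by exact_mod_cast (by have := pm_two hPm; omega : 0 < N)
  have hbd := bd_sum G f hf.nn (fun (ω : Cs V R s) x => TR G p c D M α ω x)
    (hT_of_loc _ (fun x => loc_TR hB p c α x))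
  have hsq : ∑ x, f x ^ 2 ≤ 16 * (N ^ 3 / Δ ^ 12) := hf.l2.trans (le_of_eq (by ring))
  have hB1 : (0 : ℝ) < 16 * (((Δ : ℝ) + 1) ^ 2 * (N ^ 3 / Δ ^ 12)) := by positivity
  have h := mcd' _ _ hbd (16 * (((Δ : ℝ) + 1) ^ 2 * (N ^ 3 / Δ ^ 12))) (1 / (Δ : ℝ) ^ 3)
    ((bd_sq1 G Δ hReg f _ hsq).trans (le_of_eq (by ring))) hB1 (by positivity)
  refine (pr_mono fun ω hω => ?_).trans (h.trans (tail_le _ _ _ hB1 ?_))
  · push Not at hω
    refine hω.le.trans (sub_le_sub_right ?_ _)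
    rw [mean_sum, mul_sum]
    refine sum_le_sum fun x _ => ?_
    by_cases hx : Gd p c D M α x
    · rw [if_pos hx]
      exact mul_le_mul_of_nonneg_right (pr_TR_ge hPm hReg hB hp hpN c hW hR α x hx) (hf.nn x)
    · rw [if_neg hx, mul_zero]
      exact mul_nonneg (pr_nonneg _) (hf.nn x)
  · have h1 := num_sq hPm 16 6 (by have := pN hPm 1 (by norm_num); push_cast at this; linarith) (by norm_num)
    refine h1.trans (le_of_eq ?_)
    rw [div_pow, ← pow_mul]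
    norm_num

/-- event (c), upper bound -/
theorem ev_c2 (hPm : Pm N Δ) (hReg : Reg G Δ) (hB : Base G N Δ s χ D H cl crd M z) (p : ℕ)
    (c : V → ℕ) (α : Fin s) (v : V) (f : V → ℝ) (hf : LinF G N Δ v f) :
    pr (fun ω : Cs V R s => ¬ ((∑ x, if TR G p c D M α ω x then f x else 0) ≤
      2 * (1 / (R * s : ℝ)) * (∑ x, f x) + 1 / (Δ : ℝ) ^ 3)) ≤ Real.exp (-(N : ℝ) ^ 5) := by
  have hΔ0 : (0 : ℝ) < Δ := by
    have h1 : N ^ 31 ≤ Δ := pm_pow hPm (by norm_num)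
    have h2 : 1 ≤ N ^ 31 := Nat.one_le_pow _ _ (by have := pm_two hPm; omega)
    exact_mod_cast (by omega : 0 < Δ)
  have hN0 : (0 : ℝ) < N := by exact_mod_cast (by have := pm_two hPm; omega : 0 < N)
  have hbd := bd_sum G f hf.nn (fun (ω : Cs V R s) x => TR G p c D M α ω x)
    (hT_of_loc _ (fun x => loc_TR hB p c α x))
  have hsq : ∑ x, f x ^ 2 ≤ 16 * (N ^ 3 / Δ ^ 12) := hf.l2.trans (le_of_eq (by ring))
  have hB1 : (0 : ℝ) < 16 * (((Δ : ℝ) + 1) ^ 2 * (N ^ 3 / Δ ^ 12)) := by positivity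
  have h := mcd _ _ hbd (16 * (((Δ : ℝ) + 1) ^ 2 * (N ^ 3 / Δ ^ 12))) (1 / (Δ : ℝ) ^ 3)
    ((bd_sq1 G Δ hReg f _ hsq).trans (le_of_eq (by ring))) hB1 (by positivity)
  refine (pr_mono fun ω hω => ?_).trans (h.trans (tail_le _ _ _ hB1 ?_))
  · push Not at hω
    refine le_trans (add_le_add_left ?_ _) hω.le
    rw [mean_sum]
    have h0 : 0 ≤ ∑ x, f x := sum_nonneg fun x _ => hf.nn x
    have h1 : (0 : ℝ) ≤ 1 / (R * s : ℝ) := by positivity
    calc ∑ x, pr (fun ω : Cs V R s => TR G p c D M α ω x) * f x ≤ ∑ x, 1 / (R * s : ℝ) * f x :=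
          sum_le_sum fun x _ => mul_le_mul_of_nonneg_right (pr_TR_le p c α x) (hf.nn x)
      _ = 1 / (R * s : ℝ) * ∑ x, f x := by rw [mul_sum]
      _ ≤ 2 * (1 / (R * s : ℝ)) * ∑ x, f x := by nlinarith
  · have h1 := num_sq hPm 16 6 (by have := pN hPm 1 (by norm_num); push_cast at this; linarith) (by norm_num)
    refine h1.trans (le_of_eq ?_)
    rw [div_pow, ← pow_mul]
    norm_num

/-- event (d) -/
theorem ev_d (hPm : Pm N Δ) (hReg : Reg G Δ) (hB : Base G N Δ s χ D H cl crd M z) (α : Fin s) (v : V) (f : V → ℝ)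
    (hf : LinF G N Δ v f) :
    pr (fun ω : Cs V R s => ¬ ((∑ x, if TM M α ω x then f x else 0) ≤
      2 * (1 / (R : ℝ)) ^ 2 * (∑ x, f x) + 1 / (Δ : ℝ) ^ 3)) ≤ Real.exp (-(N : ℝ) ^ 5) := by
  have hΔ0 : (0 : ℝ) < Δ := by
    have h1 : N ^ 31 ≤ Δ := pm_pow hPm (by norm_num)
    have h2 : 1 ≤ N ^ 31 := Nat.one_le_pow _ _ (by have := pm_two hPm; omega)
    exact_mod_cast (by omega : 0 < Δ)
  have hN0 : (0 : ℝ) < N := by exact_mod_cast (by have := pm_two hPm; omega : 0 < N)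
  have hbd := bd_sum G f hf.nn (fun (ω : Cs V R s) x => TM M α ω x)
    (hT_of_loc _ (fun x => loc_TM hB α x))
  have hsq : ∑ x, f x ^ 2 ≤ 16 * (N ^ 3 / Δ ^ 12) := hf.l2.trans (le_of_eq (by ring))
  have hB1 : (0 : ℝ) < 16 * (((Δ : ℝ) + 1) ^ 2 * (N ^ 3 / Δ ^ 12)) := by positivity
  have h := mcd _ _ hbd (16 * (((Δ : ℝ) + 1) ^ 2 * (N ^ 3 / Δ ^ 12))) (1 / (Δ : ℝ) ^ 3)
    ((bd_sq1 G Δ hReg f _ hsq).trans (le_of_eq (by ring))) hB1 (by positivity)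
  refine (pr_mono fun ω hω => ?_).trans (h.trans (tail_le _ _ _ hB1 ?_))
  · push Not at hω
    refine le_trans (add_le_add_left ?_ _) hω.le
    rw [mean_sum]
    have h0 : 0 ≤ ∑ x, f x := sum_nonneg fun x _ => hf.nn x
    have h1 : (0 : ℝ) ≤ (1 / (R : ℝ)) ^ 2 := by positivity
    calc ∑ x, pr (fun ω : Cs V R s => TM M α ω x) * f x ≤ ∑ x, (1 / (R : ℝ)) ^ 2 * f x :=
          sum_le_sum fun x _ => mul_le_mul_of_nonneg_right (pr_TM_le α x) (hf.nn x)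
      _ = (1 / (R : ℝ)) ^ 2 * ∑ x, f x := by rw [mul_sum]
      _ ≤ 2 * (1 / (R : ℝ)) ^ 2 * ∑ x, f x := by nlinarith
  · have h1 := num_sq hPm 16 6 (by have := pN hPm 1 (by norm_num); push_cast at this; linarith) (by norm_num)
    refine h1.trans (le_of_eq ?_)
    rw [div_pow, ← pow_mul]
    norm_num

/-- event (e) -/
theorem ev_e (hPm : Pm N Δ) (hReg : Reg G Δ) (hB : Base G N Δ s χ D H cl crd M z) (p : ℕ)
    (c : V → ℕ) (α : Fin s) (v : V) (h : V → V → ℝ) (hh : BilF G N Δ v h) :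
    pr (fun ω : Cs V R s => ¬ ((∑ x, ∑ y, if TR G p c D M α ω x ∧ TM M α ω y then h x y else 0) ≤
      2 * (1 / (R * s : ℝ)) * (1 / (R : ℝ)) * (∑ x, ∑ y, h x y) + (Δ : ℝ) ^ (-(7 : ℝ) / 2))) ≤
      Real.exp (-(N : ℝ) ^ 5) := by
  have hΔ0 : (0 : ℝ) < Δ := by
    have h1 : N ^ 31 ≤ Δ := pm_pow hPm (by norm_num)
    have h2 : 1 ≤ N ^ 31 := Nat.one_le_pow _ _ (by have := pm_two hPm; omega)
    exact_mod_cast (by omega : 0 < Δ)
  have hN0 : (0 : ℝ) < N := by exact_mod_cast (by have := pm_two hPm; omega : 0 < N)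
  have hbd := bd_sum2 G h hh.nn (fun (ω : Cs V R s) x => TR G p c D M α ω x) (fun (ω : Cs V R s) x => TM M α ω x)
    (hT_of_loc _ (fun x => loc_TR hB p c α x)) (hT_of_loc _ (fun x => loc_TM hB α x))
  have hsq1 : ∑ x, (∑ y, h x y) ^ 2 ≤ 4096 * (N ^ 3 / Δ ^ 12) := hh.rw.trans (le_of_eq (by ring))
  have hsq2 : ∑ y, (∑ x, h x y) ^ 2 ≤ 4096 * (N ^ 3 / Δ ^ 12) := hh.cm.trans (le_of_eq (by ring))
  have hB1 : (0 : ℝ) < 16384 * (((Δ : ℝ) + 1) ^ 2 * (N ^ 3 / Δ ^ 12)) := by positivity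
  have hmc := mcd _ _ hbd (16384 * (((Δ : ℝ) + 1) ^ 2 * (N ^ 3 / Δ ^ 12))) ((Δ : ℝ) ^ (-(7 : ℝ) / 2))
    ((bd_sq2 G Δ hReg (fun x => ∑ y, h x y) (fun y => ∑ x, h x y) _ hsq1 hsq2).trans (le_of_eq (by ring))) hB1
    (by positivity)
  refine (pr_mono fun ω hω => ?_).trans (hmc.trans (tail_le _ _ _ hB1 ?_))
  · push Not at hω
    refine le_trans (add_le_add_left ?_ _) hω.le
    rw [mean_sum2]
    have h0 : 0 ≤ ∑ x, ∑ y, h x y := sum_nonneg fun x _ => sum_nonneg fun y _ => hh.nn x y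
    have h1 : (0 : ℝ) ≤ 1 / (R * s : ℝ) * (1 / (R : ℝ)) := by positivity
    calc ∑ x, ∑ y, pr (fun ω : Cs V R s => TR G p c D M α ω x ∧ TM M α ω y) * h x y ≤
          ∑ x, ∑ y, 1 / (R * s : ℝ) * (1 / (R : ℝ)) * h x y := by
          refine sum_le_sum fun x _ => sum_le_sum fun y _ => ?_
          by_cases hxy : x = y
          · subst hxy
            rw [hh.dg, mul_zero, mul_zero]
          · exact mul_le_mul_of_nonneg_right (pr_TRM_le p c α x y hxy) (hh.nn x y)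
      _ = 1 / (R * s : ℝ) * (1 / (R : ℝ)) * ∑ x, ∑ y, h x y := by
          rw [mul_sum]
          refine sum_congr rfl fun x _ => ?_
          rw [mul_sum]
      _ ≤ 2 * (1 / (R * s : ℝ)) * (1 / (R : ℝ)) * ∑ x, ∑ y, h x y := by nlinarith
  · have h1 := num_sq hPm 16384 7 (by
      have h2 := hPm.big
      have h3 : (2 : ℝ) ^ 40 ≤ N := by exact_mod_cast h2
      have h4 : (N : ℝ) ≤ (N : ℝ) ^ 20 := le_self_pow₀ (by linarith [show (1 : ℝ) ≤ 2 ^ 40 by norm_num]) (by norm_num)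
      linarith [show (16384 : ℝ) ≤ 2 ^ 40 by norm_num]) (by norm_num)
    refine h1.trans (le_of_eq ?_)
    rw [← Real.rpow_natCast ((Δ : ℝ) ^ (-(7 : ℝ) / 2)), ← Real.rpow_mul hΔ0.le, ← Real.rpow_natCast, one_div,
      ← Real.rpow_neg hΔ0.le]
    congr 1
    norm_num

end

end Pool.Agent.H12.LN
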