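import Pool.Agent.H12.LN.R2

/-!
MP_b8729f, project LN, section V3 (helper12): the small random set exists (`ResP`).
-/

set_option autoImplicit false
set_option linter.unusedSectionVars false

namespace Pool.Agent.H12.LN

open Finset Classical
open Pool.Agent.H65.GI Pool.Agent.H2.LN Pool.Agent.H2.LN.Top

section
variable {V : Type} [Fintype V] {G : SimpleGraph V} {N Δ s : ℕ} {χ : V → Ty N} {D : Finset V} {H : Ty N → V → Finset V}
  {cl : Fin s → Ty N} {crd : Fin s → Fin (k0 N)} {M : Fin s → V → V} {z : Fin (k0 N)}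

theorem card_Ty (hPm : Pm N Δ) : (Fintype.card (Ty N)) ≤ Δ := by
  have hN := pm_two hPm
  have h1 : Fintype.card (Ty N) = 2 ^ k0 N * (N ^ 4 + 1) := by
    rw [Fintype.card_prod, Fintype.card_fun, ZMod.card, ZMod.card, Fintype.card_fin]
  rw [h1]
  have h2 : 2 ^ k0 N ≤ 2 * N ^ 50 := by
    have h3 : 1 < N ^ 50 := Nat.one_lt_pow (by norm_num) (by omega)
    have h4 := Nat.pow_pred_clog_lt_self (b := 2) (by norm_num) h3
    have h5 : 0 < k0 N := Nat.clog_pos (by norm_num) h3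
    have h6 : 2 ^ k0 N = 2 * 2 ^ (Nat.clog 2 (N ^ 50)).pred := by
      rw [← pow_succ']
      congr 1
      exact (Nat.succ_pred_eq_of_pos h5).symm
    rw [h6]
    omega
  have h3 : N ^ 4 + 1 ≤ N ^ 5 := by
    have : N ^ 5 = N ^ 4 * N := pow_succ N 4
    have h4 : 1 ≤ N ^ 4 := Nat.one_le_pow _ _ (by omega)
    nlinarith
  calc 2 ^ k0 N * (N ^ 4 + 1) ≤ (2 * N ^ 50) * N ^ 5 := Nat.mul_le_mul h2 h3
    _ = 2 * N ^ 55 := by ring
    _ ≤ N * N ^ 55 := Nat.mul_le_mul_right _ hN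
    _ = N ^ 56 := by ring
    _ ≤ Δ := pm_pow hPm (by norm_num)

variable (G N Δ D H M) in
/-- the bad event at `v` -/
def Bd (R : ℕ) (p : ℕ) (c : V → ℕ) {ι : Type} [Fintype ι] (f : V → ι → V → ℝ) (h : V → ι → V → V → ℝ) (v : V)
    (ω : Cs V R s) : Prop :=
  (¬ (univ.filter (fun u => G.Adj v u ∧ u ∈ Rn ω)).card ≤ N ^ 51) ∨
  (∃ a ∈ (univ : Finset (Fin s × Ty N)),
    ¬ ((H a.2 v).filter (fun u => TR G p c D M a.1 ω u ∨ TR G p c D M a.1 ω (M a.1 u))).card ≤ N ^ 5) ∨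
  ((∃ a ∈ (univ : Finset (ι × Fin s)), ¬ (1 / (R * s : ℝ) / 2 * (∑ x, if Gd p c D M a.2 x then f v a.1 x else 0) -
    1 / (Δ : ℝ) ^ 3 ≤ ∑ x, if TR G p c D M a.2 ω x then f v a.1 x else 0)) ∨
  (∃ a ∈ (univ : Finset (ι × Fin s)), ¬ ((∑ x, if TR G p c D M a.2 ω x then f v a.1 x else 0) ≤
    2 * (1 / (R * s : ℝ)) * (∑ x, f v a.1 x) + 1 / (Δ : ℝ) ^ 3)) ∨
  (∃ a ∈ (univ : Finset (ι × Fin s)), ¬ ((∑ x, if TM M a.2 ω x then f v a.1 x else 0) ≤
    2 * (1 / (R : ℝ)) ^ 2 * (∑ x, f v a.1 x) + 1 / (Δ : ℝ) ^ 3)) ∨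
  (∃ a ∈ (univ : Finset (ι × Fin s)), ¬ ((∑ x, ∑ y, if TR G p c D M a.2 ω x ∧ TM M a.2 ω y then h v a.1 x y else 0) ≤
    2 * (1 / (R * s : ℝ)) * (1 / (R : ℝ)) * (∑ x, ∑ y, h v a.1 x y) + (Δ : ℝ) ^ (-(7 : ℝ) / 2))))

theorem pr_Bd {R : ℕ} [NeZero R] [NeZero s] (hPm : Pm N Δ) (hReg : Reg G Δ) (hB : Base G N Δ s χ D H cl crd M z) {p : ℕ}
    (hp : 1 ≤ p) (hpN : p ≤ N) (c : V → ℕ) (hW : ∀ v, (univ.filter (fun α : Fin s => Wc p c α (M α v))).card ≤ N ^ 20)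
    (hR : R = 16 * (Δ - s)) {ι : Type} [Fintype ι] (hι : (Fintype.card ι : ℝ) ≤ Real.exp (N ^ 4))
    (f : V → ι → V → ℝ) (h : V → ι → V → V → ℝ) (hf : ∀ v i, LinF G N Δ v (f v i)) (hh : ∀ v i, BilF G N Δ v (h v i))
    (v : V) : pr (Bd G N Δ D H M R p c f h v) ≤
      (1 + (Δ : ℝ) * Δ + 4 * (Real.exp (N ^ 4) * Δ)) * Real.exp (-(N : ℝ) ^ 5) := by
  have hsΔ : s ≤ Δ := by
    have := gap_ge hPm hB
    omega
  have hE := (Real.exp_pos (-(N : ℝ) ^ 5)).le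
  have c1 : ((univ : Finset (Fin s × Ty N)).card : ℝ) ≤ (Δ : ℝ) * Δ := by
    rw [card_univ, Fintype.card_prod, Fintype.card_fin]
    have := Nat.mul_le_mul hsΔ (card_Ty hPm)
    exact_mod_cast this
  have c2 : ((univ : Finset (ι × Fin s)).card : ℝ) ≤ Real.exp (N ^ 4) * Δ := by
    rw [card_univ, Fintype.card_prod, Fintype.card_fin]
    push_cast
    have : (s : ℝ) ≤ Δ := by exact_mod_cast hsΔ
    exact mul_le_mul hι this (Nat.cast_nonneg _) (Real.exp_pos _).le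
  have e1 := ev_a hPm hReg hB hR v
  have e2 := pr_ex (univ : Finset (Fin s × Ty N)) (fun a (ω : Cs V R s) =>
    ¬ ((H a.2 v).filter (fun u => TR G p c D M a.1 ω u ∨ TR G p c D M a.1 ω (M a.1 u))).card ≤ N ^ 5) _
    (fun a _ => ev_b hPm hReg hB hR p c a.1 a.2 v)
  have e3 := pr_ex (univ : Finset (ι × Fin s)) (fun a (ω : Cs V R s) =>
    ¬ (1 / (R * s : ℝ) / 2 * (∑ x, if Gd p c D M a.2 x then f v a.1 x else 0) -
    1 / (Δ : ℝ) ^ 3 ≤ ∑ x, if TR G p c D M a.2 ω x then f v a.1 x else 0)) _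
    (fun a _ => ev_c1 hPm hReg hB hp hpN c hW hR a.2 v (f v a.1) (hf v a.1))
  have e4 := pr_ex (univ : Finset (ι × Fin s)) (fun a (ω : Cs V R s) =>
    ¬ ((∑ x, if TR G p c D M a.2 ω x then f v a.1 x else 0) ≤
    2 * (1 / (R * s : ℝ)) * (∑ x, f v a.1 x) + 1 / (Δ : ℝ) ^ 3)) _
    (fun a _ => ev_c2 hPm hReg hB p c a.2 v (f v a.1) (hf v a.1))
  have e5 := pr_ex (univ : Finset (ι × Fin s)) (fun a (ω : Cs V R s) =>
    ¬ ((∑ x, if TM M a.2 ω x then f v a.1 x else 0) ≤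
    2 * (1 / (R : ℝ)) ^ 2 * (∑ x, f v a.1 x) + 1 / (Δ : ℝ) ^ 3)) _
    (fun a _ => ev_d hPm hReg hB a.2 v (f v a.1) (hf v a.1))
  have e6 := pr_ex (univ : Finset (ι × Fin s)) (fun a (ω : Cs V R s) =>
    ¬ ((∑ x, ∑ y, if TR G p c D M a.2 ω x ∧ TM M a.2 ω y then h v a.1 x y else 0) ≤
    2 * (1 / (R * s : ℝ)) * (1 / (R : ℝ)) * (∑ x, ∑ y, h v a.1 x y) + (Δ : ℝ) ^ (-(7 : ℝ) / 2))) _
    (fun a _ => ev_e hPm hReg hB p c a.2 v (h v a.1) (hh v a.1))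
  have m1 := mul_le_mul_of_nonneg_right c1 hE
  have m2 := mul_le_mul_of_nonneg_right c2 hE
  unfold Bd
  refine (pr_or _ _).trans ?_
  refine (add_le_add e1 ((pr_or _ _).trans (add_le_add (e2.trans m1) ((pr_or _ _).trans (add_le_add (e3.trans m2)
    ((pr_or _ _).trans (add_le_add (e4.trans m2) ((pr_or _ _).trans (add_le_add (e5.trans m2) (e6.trans m2)))))))))).trans
    (le_of_eq ?_)
  ring

theorem nb_sub_bl {v x : V} {k l : ℕ} (hx : x ∈ bl G v k) (hkl : k + 1 ≤ l) : nb G x ⊆ bl G v l := by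
  intro y hy
  refine bl_mono G v hkl ?_
  rw [mem_nb] at hy
  rcases hy with rfl | hy
  · exact bl_mono G v (Nat.le_succ k) hx
  · exact bl_adj G hx hy

theorem sum_loc (f : V → ℝ) (B : Finset V) (hf : ∀ x, x ∉ B → f x = 0) (T T' : V → Prop) (h : ∀ x ∈ B, (T x ↔ T' x)) :
    (∑ x, if T x then f x else 0) = ∑ x, if T' x then f x else 0 := by
  refine sum_congr rfl fun x _ => ?_
  by_cases hx : x ∈ B
  · by_cases h1 : T x
    · rw [if_pos h1, if_pos ((h x hx).1 h1)]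
    · rw [if_neg h1, if_neg (fun h2 => h1 ((h x hx).2 h2))]
  · rw [hf x hx]
    simp

theorem loc_Bd {R : ℕ} (hB : Base G N Δ s χ D H cl crd M z) (p : ℕ) (c : V → ℕ)
    {ι : Type} [Fintype ι] (f : V → ι → V → ℝ) (h : V → ι → V → V → ℝ) (hf : ∀ v i, LinF G N Δ v (f v i))
    (hh : ∀ v i, BilF G N Δ v (h v i)) (v : V) :
    Loc (Bd G N Δ D H M R p c f h v) (bl G v (60 * N ^ 3 + 3)) := by
  intro ω ω' hω
  have hco : ∀ x ∈ bl G v (60 * N ^ 3 + 3), (coin ω x ↔ coin ω' x) := by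
    intro x hx
    unfold coin
    rw [hω x hx]
  have hTR : ∀ α : Fin s, ∀ x ∈ bl G v (60 * N ^ 3 + 2), (TR G p c D M α ω x ↔ TR G p c D M α ω' x) := by
    intro α x hx
    exact iff_of_eq (loc_TR hB p c α x ω ω' fun i hi => hω i (nb_sub_bl hx (by omega) hi))
  have hTM : ∀ α : Fin s, ∀ x ∈ bl G v (60 * N ^ 3 + 2), (TM M α ω x ↔ TM M α ω' x) := by
    intro α x hx
    exact iff_of_eq (loc_TM hB α x ω ω' fun i hi => hω i (nb_sub_bl hx (by omega) hi))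
  have hv : v ∈ bl G v 0 := bl_self G v 0
  have hsub : ∀ x ∈ bl G v (60 * N ^ 3), x ∈ bl G v (60 * N ^ 3 + 2) := fun x hx => bl_mono G v (by omega) hx
  have a1 : (univ.filter (fun u => G.Adj v u ∧ u ∈ Rn ω)) = univ.filter (fun u => G.Adj v u ∧ u ∈ Rn ω') := by
    refine filter_congr fun u _ => and_congr_right fun hu => ?_
    rw [mem_Rn, mem_Rn]
    exact hco u (nb_sub_bl hv (by omega) (mem_nb.2 (Or.inr hu)))
  have a2 : ∀ a : Fin s × Ty N, (H a.2 v).filter (fun u => TR G p c D M a.1 ω u ∨ TR G p c D M a.1 ω (M a.1 u)) =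
      (H a.2 v).filter (fun u => TR G p c D M a.1 ω' u ∨ TR G p c D M a.1 ω' (M a.1 u)) := by
    intro a
    refine filter_congr fun u hu => ?_
    have hu1 : u ∈ bl G v 1 := nb_sub_bl hv le_rfl (mem_nb.2 (Or.inr (hB.Hadj a.2 u v hu).1))
    have hu2 : M a.1 u ∈ bl G v 2 := nb_sub_bl hu1 le_rfl (mem_nb_M hB a.1 u)
    exact or_congr (hTR a.1 u (bl_mono G v (by omega) hu1)) (hTR a.1 _ (bl_mono G v (by omega) hu2))
  have a3 : ∀ (i : ι) (α : Fin s), (∑ x, if TR G p c D M α ω x then f v i x else 0) =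
      ∑ x, if TR G p c D M α ω' x then f v i x else 0 := fun i α =>
    sum_loc (f v i) (bl G v (60 * N ^ 3)) (hf v i).sp _ _ (fun x hx => hTR α x (hsub x hx))
  have a4 : ∀ (i : ι) (α : Fin s), (∑ x, if TM M α ω x then f v i x else 0) =
      ∑ x, if TM M α ω' x then f v i x else 0 := fun i α =>
    sum_loc (f v i) (bl G v (60 * N ^ 3)) (hf v i).sp _ _ (fun x hx => hTM α x (hsub x hx))
  have a5 : ∀ (i : ι) (α : Fin s), (∑ x, ∑ y, if TR G p c D M α ω x ∧ TM M α ω y then h v i x y else 0) =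
      ∑ x, ∑ y, if TR G p c D M α ω' x ∧ TM M α ω' y then h v i x y else 0 := by
    intro i α
    refine sum_congr rfl fun x _ => sum_congr rfl fun y _ => ?_
    by_cases hx : x ∈ bl G v (60 * N ^ 3)
    · by_cases hy : y ∈ bl G v (60 * N ^ 3)
      · have e := and_congr (hTR α x (hsub x hx)) (hTM α y (hsub y hy))
        by_cases h1 : TR G p c D M α ω x ∧ TM M α ω y
        · rw [if_pos h1, if_pos (e.1 h1)]
        · rw [if_neg h1, if_neg (fun h2 => h1 (e.2 h2))]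
      · rw [(hh v i).spy x y hy]
        simp
    · rw [(hh v i).spx x y hx]
      simp
  unfold Bd
  simp only [a1, a2, a3, a4, a5]

end

theorem log_le (N Δ : ℕ) (hPm : Pm N Δ) : Real.log Δ + 1 ≤ N := by
  have h1 := hPm.log
  have h2 : (2 : ℝ) ^ 40 ≤ N := by exact_mod_cast hPm.big
  have h3 : (4 : ℝ) ≤ N := by linarith [show (4 : ℝ) ≤ 2 ^ 40 by norm_num]
  by_contra hcon
  push Not at hcon
  have h4 : (N : ℝ) - 1 < Real.log Δ := by linarith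
  have h5 : (1 : ℝ) ≤ Real.log Δ := by linarith
  have h6 : Real.log Δ ^ 2 ≤ Real.log Δ ^ 10 := pow_le_pow_right₀ h5 (by norm_num)
  nlinarith

theorem num_lll (N Δ : ℕ) (hPm : Pm N Δ) :
    4 * ((1 + (Δ : ℝ) * Δ + 4 * (Real.exp (N ^ 4) * Δ)) * Real.exp (-(N : ℝ) ^ 5)) * ((Δ : ℝ) + 1) ^ (2 * (60 * N ^ 3 + 3)) ≤ 1 := by
  have hN := pm_two hPm
  have hN2 : (2 : ℝ) ^ 40 ≤ N := by exact_mod_cast hPm.big
  have hN3 : (200 : ℝ) ≤ N := by linarith [show (200 : ℝ) ≤ 2 ^ 40 by norm_num]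
  have hΔ1 : 1 ≤ Δ := by
    have h1 : N ^ 31 ≤ Δ := pm_pow hPm (by norm_num)
    have h2 : 1 ≤ N ^ 31 := Nat.one_le_pow _ _ (by omega)
    omega
  have hΔ : (1 : ℝ) ≤ Δ := by exact_mod_cast hΔ1
  have hlog := log_le N Δ hPm
  have d1 : (Δ : ℝ) ≤ Real.exp N := by
    rw [← Real.exp_log (by linarith : (0 : ℝ) < Δ)]
    exact Real.exp_le_exp.2 (by linarith)
  have d2 : (Δ : ℝ) + 1 ≤ Real.exp N := by
    have h1 : (Δ : ℝ) + 1 ≤ Real.exp 1 * Δ := by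
      have := Real.add_one_le_exp 1
      nlinarith
    refine h1.trans ?_
    have h2 : (Δ : ℝ) = Real.exp (Real.log Δ) := (Real.exp_log (by linarith)).symm
    rw [h2, ← Real.exp_add]
    exact Real.exp_le_exp.2 (by linarith)
  have d3 : ((Δ : ℝ) + 1) ^ (2 * (60 * N ^ 3 + 3)) ≤ Real.exp (120 * N ^ 4 + 6 * N) := by
    refine (pow_le_pow_left₀ (by linarith) d2 _).trans (le_of_eq ?_)
    rw [← Real.exp_nat_mul]
    congr 1
    push_cast
    ring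
  have d4 : 1 + (Δ : ℝ) * Δ + 4 * (Real.exp (N ^ 4) * Δ) ≤ 6 * Real.exp (N ^ 4 + 2 * N) := by
    have h1 : (Δ : ℝ) * Δ ≤ Real.exp (N ^ 4 + 2 * N) := by
      calc (Δ : ℝ) * Δ ≤ Real.exp N * Real.exp N := by gcongr
        _ = Real.exp (2 * N) := by rw [← Real.exp_add]; congr 1; ring
        _ ≤ _ := Real.exp_le_exp.2 (by have : (0 : ℝ) ≤ (N : ℝ) ^ 4 := by positivity
                                       linarith)
    have h2 : Real.exp (N ^ 4) * Δ ≤ Real.exp (N ^ 4 + 2 * N) := by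
      calc Real.exp (N ^ 4) * Δ ≤ Real.exp (N ^ 4) * Real.exp N := by gcongr
        _ = Real.exp (N ^ 4 + N) := by rw [← Real.exp_add]
        _ ≤ _ := Real.exp_le_exp.2 (by linarith)
    have h3 : (1 : ℝ) ≤ Real.exp (N ^ 4 + 2 * N) := Real.one_le_exp (by positivity)
    linarith
  have d5 : (24 : ℝ) ≤ Real.exp N := by
    have := Real.add_one_le_exp (N : ℝ)
    linarith
  calc 4 * ((1 + (Δ : ℝ) * Δ + 4 * (Real.exp (N ^ 4) * Δ)) * Real.exp (-(N : ℝ) ^ 5)) * ((Δ : ℝ) + 1) ^ (2 * (60 * N ^ 3 + 3))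
      ≤ 4 * ((6 * Real.exp (N ^ 4 + 2 * N)) * Real.exp (-(N : ℝ) ^ 5)) * Real.exp (120 * N ^ 4 + 6 * N) := by gcongr
    _ = 24 * (Real.exp (N ^ 4 + 2 * N) * Real.exp (-(N : ℝ) ^ 5) * Real.exp (120 * N ^ 4 + 6 * N)) := by ring
    _ ≤ Real.exp N * (Real.exp (N ^ 4 + 2 * N) * Real.exp (-(N : ℝ) ^ 5) * Real.exp (120 * N ^ 4 + 6 * N)) := by gcongr
    _ = Real.exp (N + (N ^ 4 + 2 * N) + (-(N : ℝ) ^ 5) + (120 * N ^ 4 + 6 * N)) := by
        rw [← Real.exp_add, ← Real.exp_add, ← Real.exp_add]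
        congr 1
        ring
    _ ≤ 1 := by
        rw [Real.exp_le_one_iff]
        have e : (N : ℝ) ^ 5 = N * N ^ 4 := by ring
        have h1 : (200 : ℝ) * (N : ℝ) ^ 4 ≤ N ^ 5 := by
          rw [e]
          exact mul_le_mul_of_nonneg_right hN3 (by positivity)
        have h2 : (N : ℝ) ≤ (N : ℝ) ^ 4 := le_self_pow₀ (by linarith) (by norm_num)
        linarith

theorem pr_unit {V κ A : Type} [Fintype V] [Fintype κ] [Nonempty κ] [Fintype A] (a0 : A) (P : (V → κ) → Prop) :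
    pr (fun w : V × A → κ => P (fun u => w (u, a0))) = pr P := by
  rw [ex_ind, ex_ind]
  have := ex_emb (κ := κ) (fun u : V => (u, a0)) (fun a b h => (Prod.ext_iff.1 h).1)
    (fun w : V → κ => if P w then (1 : ℝ) else 0)
  rw [← this]
  congr 1
  exact Subsingleton.elim _ _

theorem resP : ResP := by
  intro N Δ hPm V _ G hReg s χ D H cl crd M z hB p hp hpN c hc hW ι _ hι f h hf hh
  have hgap := gap_ge hPm hB
  have hN := pm_two hPm
  have hN50 : 1 ≤ N ^ 50 := Nat.one_le_pow _ _ (by omega)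
  have hs0 : s ≠ 0 := by
    intro h0
    have h1 := s_ge hB hPm
    rw [h0] at h1
    have h2 : (1 : ℝ) ≤ Δ := by
      have h3 : N ^ 31 ≤ Δ := pm_pow hPm (by norm_num)
      have h4 : 1 ≤ N ^ 31 := Nat.one_le_pow _ _ (by omega)
      exact_mod_cast (by omega : 1 ≤ Δ)
    simp at h1
    linarith
  have hR0 : rq Δ s ≠ 0 := by
    unfold rq
    omega
  have : NeZero s := ⟨hs0⟩
  have : NeZero (rq Δ s) := ⟨hR0⟩
  obtain ⟨q, hq⟩ : ∃ q, q = (1 + (Δ : ℝ) * Δ + 4 * (Real.exp (N ^ 4) * Δ)) * Real.exp (-(N : ℝ) ^ 5) := ⟨_, rfl⟩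
  have hq0 : 0 ≤ q := by
    rw [hq]
    positivity
  obtain ⟨ω, hω⟩ := lll_bl (A := Unit) (κ := Fin (rq Δ s) × Fin s) G Δ hReg (60 * N ^ 3 + 3)
    (fun v (w : V × Unit → Fin (rq Δ s) × Fin s) => Bd G N Δ D H M (rq Δ s) p c f h v (fun u => w (u, ())))
    (by
      intro v w w' hw
      refine loc_Bd hB p c f h hf hh v _ _ fun i hi => ?_
      exact hw (i, ()) (mem_product.2 ⟨hi, mem_univ _⟩)) q hq0
    (by
      intro v
      rw [hq]
      exact le_trans (le_of_eq (pr_unit () (Bd G N Δ D H M (rq Δ s) p c f h v)))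
        (pr_Bd (R := rq Δ s) hPm hReg hB hp hpN c hW rfl hι f h hf hh v)) (by rw [hq]; exact num_lll N Δ hPm)
  obtain ⟨w, hw⟩ : ∃ w : Cs V (rq Δ s) s, w = fun u => ω (u, ()) := ⟨_, rfl⟩
  have hw' : ∀ v, ¬ Bd G N Δ D H M (rq Δ s) p c f h v w := by
    intro v
    rw [hw]
    exact hω v
  have hw2 : ∀ v, ((univ.filter (fun u => G.Adj v u ∧ u ∈ Rn w)).card ≤ N ^ 51) ∧ _ := fun v => by
    have h1 := hw' v
    unfold Bd at h1
    rw [not_or, not_not] at h1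
    exact h1
  refine ⟨Rn w, lab w, ?_⟩
  constructor
  · intro v
    exact (hw2 v).1
  · intro α κ v
    by_contra hcon
    refine (hw2 v).2 (Or.inl ⟨(α, κ), mem_univ _, fun h1 => hcon ?_⟩)
    exact h1
  · intro v i α
    by_contra hcon
    exact (hw2 v).2 (Or.inr (Or.inl ⟨(i, α), mem_univ _, fun h1 => hcon h1⟩))
  · intro v i α
    by_contra hcon
    exact (hw2 v).2 (Or.inr (Or.inr (Or.inl ⟨(i, α), mem_univ _, fun h1 => hcon h1⟩)))
  · intro v i α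
    by_contra hcon
    refine (hw2 v).2 (Or.inr (Or.inr (Or.inr (Or.inl ⟨(i, α), mem_univ _, fun h1 => hcon (le_trans (le_of_eq ?_) h1)⟩))))
    refine sum_congr rfl fun x _ => ?_
    unfold TM
    congr!
  · intro v i α
    by_contra hcon
    refine (hw2 v).2 (Or.inr (Or.inr (Or.inr (Or.inr ⟨(i, α), mem_univ _, fun h1 => hcon (le_trans (le_of_eq ?_) h1)⟩))))
    refine sum_congr rfl fun x _ => sum_congr rfl fun y _ => ?_
    unfold TM TR
    congr!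

end Pool.Agent.H12.LN
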