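import Mathlib
import Pool.Agent.H65.GI.Chf

/-!
MP_b8729f, project LN, section V (helper12): Chernoff bound for weighted sums of independent coins; sparse coins of which
the twins are pruned.
-/

set_option autoImplicit false

namespace Pool.Agent.H12.LN

open Finset Classical
open Pool.Agent.H65.GI

/-- Chernoff bound with weights in `[0, a]`. -/
theorem ch_w {I κ ι : Type} [Fintype I] [Fintype κ] [Nonempty κ] (J : Finset ι)
    (A : ι → (I → κ) → Prop) (S : ι → Finset I) (hS : ∀ i ∈ J, Loc (A i) (S i))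
    (hd : ∀ i ∈ J, ∀ j ∈ J, i ≠ j → Disjoint (S i) (S j)) (w : ι → ℝ) (a : ℝ) (ha : 0 < a)
    (hw : ∀ i ∈ J, 0 ≤ w i ∧ w i ≤ a) (y : ι → ℝ) (hy : ∀ i ∈ J, pr (A i) ≤ y i) (μ lam : ℝ)
    (hμ : ∑ i ∈ J, y i * w i ≤ μ) (hlam : 0 ≤ lam) :
    pr (fun ω => 3 * μ + 2 * lam * a ≤ ∑ i ∈ J, if A i ω then w i else 0) ≤ Real.exp (-lam) := by
  have hy0 : ∀ i ∈ J, 0 ≤ y i := fun i hi => (pr_nonneg _).trans (hy i hi)
  have hμ0 : 0 ≤ μ := (Finset.sum_nonneg fun i hi => mul_nonneg (hy0 i hi) (hw i hi).1).trans hμ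
  have hΩ : (0 : ℝ) < Fintype.card (I → κ) := by exact_mod_cast Fintype.card_pos
  have h := Pool.Agent.H67.HY.GC_upper J A w y a μ (3 * μ + 2 * lam * a) 1 ha
    (fun i hi => (hw i hi).1) (fun i hi => (hw i hi).2) hy0 (fun J' hJ' => by
      have h1 : pr (fun ω => ∀ i ∈ J', A i ω) ≤ ∏ i ∈ J', y i := by
        rw [pr_forall J' A S (fun i hi => hS i (hJ' hi))
          (fun i hi j hj hij => hd i (hJ' hi) j (hJ' hj) hij)]
        exact Finset.prod_le_prod (fun i _ => pr_nonneg _) (fun i hi => hy i (hJ' hi))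
      unfold pr at h1
      rw [div_le_iff₀ hΩ] at h1
      refine le_trans (le_of_eq ?_) h1
      congr 2
      ext ω
      simp only [Finset.mem_filter]) hμ zero_le_one le_rfl
  unfold pr
  rw [div_le_iff₀ hΩ]
  refine le_trans (le_of_eq ?_) (h.trans ?_)
  · congr 2
  · refine mul_le_mul_of_nonneg_right (Real.exp_le_exp.2 ?_) (Nat.cast_nonneg _)
    have e : (1 + (1:ℝ) ^ 2) * μ / a - 1 / a * (3 * μ + 2 * lam * a) = -(μ / a) - 2 * lam := by
      field_simp
      ring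
    rw [e]
    have : 0 ≤ μ / a := div_nonneg hμ0 ha.le
    linarith

/-- `x` and `z` are twins: `E x` and `A z` have at least `t` common elements. -/
def tw {V : Type} (E A : V → Finset V) (t : ℝ) (x z : V) : Prop := t ≤ ((E x ∩ A z).card : ℝ)

/-- double counting -/
theorem tw_sum {V : Type} [Fintype V] (E A : V → Finset V) (hA : ∀ y z, y ∈ A z → z ∈ A y) (e a : ℝ)
    (hE : ∀ v, ((E v).card : ℝ) ≤ e) (ha : ∀ v, ((A v).card : ℝ) ≤ a) (ha0 : 0 ≤ a) (x : V) :
    ∑ z, ((E x ∩ A z).card : ℝ) ≤ e * a := by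
  have h1 : ∀ z, ((E x ∩ A z).card : ℝ) = ∑ y ∈ E x, if y ∈ A z then (1 : ℝ) else 0 := by
    intro z
    rw [Finset.sum_boole, Finset.filter_mem_eq_inter]
  simp_rw [h1]
  rw [Finset.sum_comm]
  calc ∑ y ∈ E x, ∑ z, (if y ∈ A z then (1 : ℝ) else 0) ≤ ∑ _y ∈ E x, a := by
        refine Finset.sum_le_sum fun y _ => ?_
        rw [Finset.sum_boole]
        refine le_trans ?_ (ha y)
        exact_mod_cast Finset.card_le_card fun z hz => hA _ _ (Finset.mem_filter.1 hz).2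
    _ = (E x).card * a := by rw [Finset.sum_const, nsmul_eq_mul]
    _ ≤ e * a := mul_le_mul_of_nonneg_right (hE x) ha0

/-- double counting, the other side -/
theorem tw_sum' {V : Type} [Fintype V] (E A : V → Finset V) (hE' : ∀ y z, y ∈ E z → z ∈ E y) (e a : ℝ)
    (hE : ∀ v, ((E v).card : ℝ) ≤ e) (ha : ∀ v, ((A v).card : ℝ) ≤ a) (he0 : 0 ≤ e) (z : V) :
    ∑ x, ((E x ∩ A z).card : ℝ) ≤ e * a := by
  have h := tw_sum A E hE' a e ha hE he0 z
  rw [mul_comm]
  refine le_trans (le_of_eq (Finset.sum_congr rfl fun x _ => ?_)) h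
  rw [Finset.inter_comm]

/-- few twins -/
theorem tw_few {V : Type} [Fintype V] (f : V → ℝ) (hf : ∀ z, 0 ≤ f z) (t c : ℝ) (ht : 0 < t)
    (h : ∑ z, f z ≤ c) : (((univ.filter fun z => t ≤ f z).card : ℕ) : ℝ) ≤ c / t := by
  rw [le_div_iff₀ ht]
  calc (((univ.filter fun z => t ≤ f z).card : ℕ) : ℝ) * t = ∑ _z ∈ univ.filter (fun z => t ≤ f z), t := by
        rw [Finset.sum_const, nsmul_eq_mul]
    _ ≤ ∑ z ∈ univ.filter (fun z => t ≤ f z), f z :=
        Finset.sum_le_sum fun z hz => (Finset.mem_filter.1 hz).2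
    _ ≤ ∑ z, f z := Finset.sum_le_sum_of_subset_of_nonneg (Finset.filter_subset _ _) fun z _ _ => hf z
    _ ≤ c := h

end Pool.Agent.H12.LN
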