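import Mathlib
import Pool.Agent.H12.LN.V0

/-!
MP_b8729f, project LN, section V3 (helper12): the criterion for the last labels. `cD`, `cR`: coins; `Dp`, `Rp`: the pruned
coins. `E x`: reserve edges at `x`; `N`: all edges; `Es`: static edges that may be left over.
-/

set_option autoImplicit false

namespace Pool.Agent.H12.LN

open Finset Classical
open Pool.Agent.H65.GI

/-- The exceptional vertices of the base: `D`-coins without twins. -/
def Dp {V : Type} (E N : V → Finset V) (t : ℝ) (cD : V → Prop) (v : V) : Prop :=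
  cD v ∧ ∀ z, z ≠ v → cD z → ¬ tw E N t v z ∧ ¬ tw E N t z v

/-- The reserve vertices: `R`-coins without twins. -/
def Rp {V : Type} (E N Es : V → Finset V) (t : ℝ) (cD cR : V → Prop) (v : V) : Prop :=
  cR v ∧ ¬ cD v ∧ (∀ z, z ≠ v → cR z → ¬ tw E Es t v z ∧ ¬ tw E Es t z v) ∧
    ∀ z, cD z → ¬ tw E N t v z ∧ ¬ tw E N t z v

/-- Sum of the intersections with the coins that are no twins. -/
noncomputable def ws {V : Type} [Fintype V] (E A : V → Finset V) (t : ℝ) (c : V → Prop) (x : V) : ℝ :=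
  ∑ z ∈ univ.filter (fun z => z ≠ x ∧ ¬ tw E A t x z), if c z then ((E x ∩ A z).card : ℝ) else 0

/-- V3, deterministic part. -/
theorem unspoiled {V : Type} [Fintype V] (Hf : SimpleGraph V) (E N Es Car : V → Finset V) (t : ℝ)
    (cD cR : V → Prop) (x : V) (hx : Dp E N t cD x ∨ Rp E N Es t cD cR x) (t1 t2 t3 : ℝ)
    (h0 : t1 + t2 + t3 < (((E x).filter fun y => Hf.Adj x y).card : ℝ))
    (hs : ∀ v, Es v ⊆ N v) (hN : ∀ y z, z ∈ N y → y ∈ N z) (hEs : ∀ y z, z ∈ Es y → y ∈ Es z)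
    (hH : ∀ y ∈ E x, ∀ z, Hf.Adj y z → z ∈ N y ∧ (z ∈ Es y ∨ z ∈ Car y))
    (hD : ws E N t cD x ≤ t1) (hR : ws E Es t cR x ≤ t2)
    (hC : (((E x).filter fun y => ∃ z ∈ Car y, Rp E N Es t cD cR z).card : ℝ) ≤ t3) :
    ∃ y ∈ E x, Hf.Adj x y ∧ ∀ z, Hf.Adj y z →
      (Dp E N t cD z ∨ Rp E N Es t cD cR z) → z = x := by
  by_contra hcon
  push Not at hcon
  -- the spoiled vertices
  have hsub : (E x).filter (fun y => Hf.Adj x y) ⊆
      ((E x).filter fun y => ∃ z, z ≠ x ∧ ¬ tw E N t x z ∧ cD z ∧ z ∈ N y) ∪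
      (((E x).filter fun y => ∃ z, z ≠ x ∧ ¬ tw E Es t x z ∧ cR z ∧ z ∈ Es y) ∪
        ((E x).filter fun y => ∃ z ∈ Car y, Rp E N Es t cD cR z)) := by
    intro y hy
    rw [mem_filter] at hy
    obtain ⟨z, hz, hzDR, hzx⟩ := hcon y hy.1 hy.2
    obtain ⟨hzN, hzE⟩ := hH y hy.1 z hz
    rcases hzDR with hzD | hzR
    · refine mem_union_left _ (mem_filter.2 ⟨hy.1, z, hzx, ?_, hzD.1, hzN⟩)
      rcases hx with hx | hx
      · exact (hx.2 z hzx hzD.1).1
      · exact (hx.2.2.2 z hzD.1).1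
    · rcases hzE with hzE | hzC
      · refine mem_union_right _ (mem_union_left _ (mem_filter.2 ⟨hy.1, z, hzx, ?_, hzR.1, hzE⟩))
        rcases hx with hx | hx
        · intro h
          refine (hzR.2.2.2 x hx.1).2 ?_
          unfold tw at h ⊢
          refine h.trans ?_
          exact_mod_cast card_le_card (inter_subset_inter_left (hs z))
        · exact (hx.2.2.1 z hzx hzR.1).1
      · exact mem_union_right _ (mem_union_right _ (mem_filter.2 ⟨hy.1, z, hzC, hzR⟩))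
  have hcnt : ∀ (A : V → Finset V) (c : V → Prop), (∀ y z, z ∈ A y → y ∈ A z) →
      ((((E x).filter fun y => ∃ z, z ≠ x ∧ ¬ tw E A t x z ∧ c z ∧ z ∈ A y).card : ℕ) : ℝ) ≤
        ws E A t c x := by
    intro A c hA
    have h1 : ((E x).filter fun y => ∃ z, z ≠ x ∧ ¬ tw E A t x z ∧ c z ∧ z ∈ A y) ⊆
        (univ.filter (fun z => (z ≠ x ∧ ¬ tw E A t x z) ∧ c z)).biUnion (fun z => E x ∩ A z) := by
      intro y hy
      rw [mem_filter] at hy
      obtain ⟨hy1, z, h1, h2, h3, h4⟩ := hy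
      rw [mem_biUnion]
      exact ⟨z, mem_filter.2 ⟨mem_univ _, ⟨h1, h2⟩, h3⟩, mem_inter.2 ⟨hy1, hA y z h4⟩⟩
    have h2 := (card_le_card h1).trans card_biUnion_le
    have h3 : ws E A t c x = ∑ z ∈ univ.filter (fun z => (z ≠ x ∧ ¬ tw E A t x z) ∧ c z),
        ((E x ∩ A z).card : ℝ) := by
      unfold ws
      rw [← sum_filter, filter_filter]
    rw [h3]
    exact_mod_cast h2
  have c1 := hcnt N cD hN
  have c2 := hcnt Es cR hEs
  have c3 := (card_le_card hsub).trans ((card_union_le _ _).trans (Nat.add_le_add_left (card_union_le _ _) _))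
  have c4 : (((E x).filter fun y => Hf.Adj x y).card : ℝ) ≤
      ((((E x).filter fun y => ∃ z, z ≠ x ∧ ¬ tw E N t x z ∧ cD z ∧ z ∈ N y).card : ℕ) : ℝ) +
      (((((E x).filter fun y => ∃ z, z ≠ x ∧ ¬ tw E Es t x z ∧ cR z ∧ z ∈ Es y).card : ℕ) : ℝ) +
        (((E x).filter fun y => ∃ z ∈ Car y, Rp E N Es t cD cR z).card : ℝ)) := by
    exact_mod_cast c3
  linarith

/-- V3, probability of the events for one kind of coins: `c z` depends only on the coordinates in `S z`. -/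
theorem ws_pr {V I κ : Type} [Fintype V] [Fintype I] [Fintype κ] [Nonempty κ] (E A : V → Finset V) (t : ℝ)
    (ht : 0 < t) (hA : ∀ y z, y ∈ A z → z ∈ A y) (e a : ℝ) (hE : ∀ v, ((E v).card : ℝ) ≤ e)
    (ha : ∀ v, ((A v).card : ℝ) ≤ a) (ha0 : 0 ≤ a) (c : V → (I → κ) → Prop) (S : V → Finset I)
    (hS : ∀ z, Loc (c z) (S z)) (hd : ∀ z z', z ≠ z' → Disjoint (S z) (S z')) (q : ℝ) (hq0 : 0 ≤ q)
    (hq : ∀ z, pr (c z) ≤ q) (x : V) (lam : ℝ) (hlam : 0 ≤ lam) :
    pr (fun ω => 3 * (q * (e * a)) + 2 * lam * t ≤ ws E A t (fun z => c z ω) x) ≤ Real.exp (-lam) := by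
  unfold ws
  refine ch_w (univ.filter (fun z => z ≠ x ∧ ¬ tw E A t x z)) c S (fun z _ => hS z)
    (fun z _ z' _ h => hd z z' h) (fun z => ((E x ∩ A z).card : ℝ)) t ht (fun z hz => ⟨Nat.cast_nonneg _, ?_⟩)
    (fun _ => q) (fun z _ => hq z) (q * (e * a)) lam ?_ hlam
  · have h1 := (mem_filter.1 hz).2.2
    unfold tw at h1
    exact (not_le.1 h1).le
  · rw [← mul_sum]
    refine mul_le_mul_of_nonneg_left ?_ hq0
    refine le_trans ?_ (tw_sum E A hA e a hE ha ha0 x)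
    exact sum_le_sum_of_subset_of_nonneg (filter_subset _ _) fun z _ _ => Nat.cast_nonneg _

/-- V3: probability that a vertex has a twin with a coin. -/
theorem twin_pr {V I κ : Type} [Fintype V] [Fintype I] [Fintype κ] [Nonempty κ] (E A : V → Finset V) (t : ℝ)
    (ht : 0 < t) (hE' : ∀ y z, y ∈ E z → z ∈ E y) (hA : ∀ y z, y ∈ A z → z ∈ A y) (e a : ℝ)
    (hE : ∀ v, ((E v).card : ℝ) ≤ e) (ha : ∀ v, ((A v).card : ℝ) ≤ a) (he0 : 0 ≤ e) (ha0 : 0 ≤ a)
    (c : V → (I → κ) → Prop) (q : ℝ) (hq0 : 0 ≤ q) (hq : ∀ z, pr (c z) ≤ q) (v : V) :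
    pr (fun ω => ∃ z, c z ω ∧ (tw E A t v z ∨ tw E A t z v)) ≤ 2 * (e * a / t) * q := by
  have h1 : pr (fun ω => ∃ z, c z ω ∧ (tw E A t v z ∨ tw E A t z v)) ≤
      pr (fun ω => ∃ z ∈ (univ.filter fun z => tw E A t v z) ∪ (univ.filter fun z => tw E A t z v), c z ω) := by
    refine pr_mono fun ω h => ?_
    obtain ⟨z, hz, h⟩ := h
    refine ⟨z, ?_, hz⟩
    rw [mem_union, mem_filter, mem_filter]
    rcases h with h | h
    · exact Or.inl ⟨mem_univ _, h⟩
    · exact Or.inr ⟨mem_univ _, h⟩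
  refine h1.trans ((pr_ex _ (fun z ω => c z ω) q fun z _ => hq z).trans ?_)
  refine mul_le_mul_of_nonneg_right ?_ hq0
  have h2 := tw_few (fun z => ((E v ∩ A z).card : ℝ)) (fun _ => Nat.cast_nonneg _) t (e * a) ht
    (tw_sum E A hA e a hE ha ha0 v)
  have h3 := tw_few (fun z => ((E z ∩ A v).card : ℝ)) (fun _ => Nat.cast_nonneg _) t (e * a) ht
    (tw_sum' E A hE' e a hE ha he0 v)
  have h4 := card_union_le (univ.filter fun z => tw E A t v z) (univ.filter fun z => tw E A t z v)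
  have h5 : ((((univ.filter fun z => tw E A t v z) ∪ (univ.filter fun z => tw E A t z v)).card : ℕ) : ℝ) ≤
      (((univ.filter fun z => tw E A t v z).card : ℕ) : ℝ) + (((univ.filter fun z => tw E A t z v).card : ℕ) : ℝ) := by
    exact_mod_cast h4
  unfold tw at h5 ⊢
  linarith

/-- The event of `ws` is local. -/
theorem ws_loc {V I κ : Type} [Fintype V] (E A : V → Finset V) (t : ℝ) (c : V → (I → κ) → Prop) (S : V → Finset I)
    (hS : ∀ z, Loc (c z) (S z)) (x : V) (T : Finset I)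
    (hT : ∀ z, (E x ∩ A z).Nonempty → S z ⊆ T) : Loc (fun ω => ws E A t (fun z => c z ω) x) T := by
  intro ω ω' h
  unfold ws
  refine sum_congr rfl fun z _ => ?_
  by_cases hz : (E x ∩ A z).Nonempty
  · have h1 : c z ω = c z ω' := hS z ω ω' fun i hi => h i (hT z hz hi)
    simp only [h1]
  · rw [not_nonempty_iff_eq_empty] at hz
    simp [hz]

end Pool.Agent.H12.LN
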