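import Mathlib
import Pool.Agent.H12.LN.V0

/-!
MP_b8729f, project LN, section V3 (helper12): few elements of `E` are in active nodes of their lists of labels. A node is a
pair `{v, N α v}`; its coin is `act α v`.
-/

set_option autoImplicit false

namespace Pool.Agent.H12.LN

open Finset Classical
open Pool.Agent.H65.GI

/-- Two representations of the same node. -/
def NodeRel {V L : Type} (N : L → V → V) (p q : L × V) : Prop := p.1 = q.1 ∧ (q.2 = p.2 ∨ q.2 = N p.1 p.2)

theorem nodeRel_equiv {V L : Type} (N : L → V → V) (hN : ∀ α v, N α (N α v) = v) : Equivalence (NodeRel N) where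
  refl p := ⟨rfl, Or.inl rfl⟩
  symm := by
    rintro ⟨a, v⟩ ⟨b, w⟩ ⟨h, h'⟩
    have h1 : a = b := h
    subst h1
    refine ⟨rfl, ?_⟩
    rcases h' with h' | h'
    · exact Or.inl h'.symm
    · have h2 : w = N a v := h'
      right
      show v = N a w
      rw [h2, hN]
  trans := by
    rintro ⟨a, v⟩ ⟨b, w⟩ ⟨c, u⟩ ⟨h, h'⟩ ⟨k, k'⟩
    have h1 : a = b := h
    have k1 : b = c := k
    subst h1
    subst k1
    refine ⟨rfl, ?_⟩
    have h2 : w = v ∨ w = N a v := h'
    have k2 : u = w ∨ u = N a w := k'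
    show u = v ∨ u = N a v
    rcases h2 with h2 | h2 <;> rcases k2 with k2 | k2
    · exact Or.inl (k2.trans h2)
    · exact Or.inr (by rw [k2, h2])
    · exact Or.inr (by rw [k2, h2])
    · exact Or.inl (by rw [k2, h2, hN])

theorem car_pr {V I κ L : Type} [Fintype V] [Fintype I] [Fintype κ] [Nonempty κ] (N : L → V → V)
    (hN : ∀ α v, N α (N α v) = v) (act : L → V → (I → κ) → Prop) (hact : ∀ α v ω, act α (N α v) ω ↔ act α v ω)
    (S : L → V → Finset I) (hS : ∀ α v, Loc (act α v) (S α v))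
    (hd : ∀ α v α' v', ¬ (α = α' ∧ (v' = v ∨ v' = N α v)) → Disjoint (S α v) (S α' v')) (θ : ℝ) (hθ : 0 ≤ θ)
    (hp : ∀ α v, pr (act α v) ≤ θ) (E : Finset V) (Lb : V → Finset L) (e l : ℝ) (hE : (E.card : ℝ) ≤ e)
    (hl : ∀ y ∈ E, ((Lb y).card : ℝ) ≤ l) (hl0 : 0 ≤ l) (lam : ℝ) (hlam : 0 ≤ lam) :
    pr (fun ω => 6 * (θ * (e * l)) + 4 * lam ≤ ((E.filter fun y => ∃ α ∈ Lb y, act α y ω).card : ℝ)) ≤
      Real.exp (-lam) := by
  let st : Setoid (L × V) := ⟨NodeRel N, nodeRel_equiv N hN⟩
  let r : L × V → L × V := fun p => Quotient.out (Quotient.mk st p)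
  have hr : ∀ p, NodeRel N (r p) p := fun p => Quotient.exact (Quotient.out_eq (Quotient.mk st p))
  have hrr : ∀ p q, NodeRel N p q → r p = r q := fun p q h => by
    show Quotient.out _ = Quotient.out _
    rw [Quotient.sound (s := st) h]
  have hact' : ∀ p q ω, NodeRel N p q → (act p.1 p.2 ω ↔ act q.1 q.2 ω) := by
    rintro ⟨a, v⟩ ⟨b, w⟩ ω ⟨h, h'⟩
    have h1 : a = b := h
    subst h1
    have h2 : w = v ∨ w = N a v := h'
    show act a v ω ↔ act a w ω
    rcases h2 with h2 | h2
    · rw [h2]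
    · rw [h2, hact]
  let P : Finset (L × V) := E.biUnion fun y => (Lb y).image fun α => (α, y)
  have hPc : (P.card : ℝ) ≤ e * l := by
    have h1 : P.card ≤ ∑ y ∈ E, (Lb y).card :=
      card_biUnion_le.trans (sum_le_sum fun y _ => card_image_le)
    have h2 : (P.card : ℝ) ≤ ∑ y ∈ E, ((Lb y).card : ℝ) := by exact_mod_cast h1
    refine h2.trans ((sum_le_sum hl).trans ?_)
    rw [sum_const, nsmul_eq_mul]
    exact mul_le_mul_of_nonneg_right hE hl0
  let J : Finset (L × V) := P.image r
  have hJc : (J.card : ℝ) ≤ e * l := by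
    have : (J.card : ℝ) ≤ P.card := by exact_mod_cast card_image_le
    exact this.trans hPc
  have hJr : ∀ p ∈ J, r p = p := by
    intro p hp'
    obtain ⟨q, _, rfl⟩ := mem_image.1 hp'
    exact hrr _ _ (hr q)
  have hch := ch_up J (fun p ω => act p.1 p.2 ω) (fun p => S p.1 p.2) (fun p _ => hS p.1 p.2)
    (fun p hp' q hq' hpq => hd p.1 p.2 q.1 q.2 fun h => hpq (by
      rw [← hJr p hp', ← hJr q hq']
      exact hrr p q h)) (fun _ => θ) (fun p _ => hp p.1 p.2) (θ * (e * l)) lam (by
      rw [sum_const, nsmul_eq_mul, mul_comm]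
      exact mul_le_mul_of_nonneg_left hJc hθ) hlam
  refine (pr_mono fun ω hω => ?_).trans hch
  have h1 : (E.filter fun y => ∃ α ∈ Lb y, act α y ω).card ≤ (P.filter fun p => act p.1 p.2 ω).card := by
    have h2 : (E.filter fun y => ∃ α ∈ Lb y, act α y ω) ⊆ (P.filter fun p => act p.1 p.2 ω).image Prod.snd := by
      intro y hy
      rw [mem_filter] at hy
      obtain ⟨hyE, α, hα, ha⟩ := hy
      refine mem_image.2 ⟨(α, y), mem_filter.2 ⟨mem_biUnion.2 ⟨y, hyE, mem_image.2 ⟨α, hα, rfl⟩⟩, ha⟩, rfl⟩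
    exact (card_le_card h2).trans card_image_le
  have h3 : (P.filter fun p => act p.1 p.2 ω).card ≤ 2 * (J.filter fun p => act p.1 p.2 ω).card := by
    have h4 := card_le_mul_card_image (f := r) (P.filter fun p => act p.1 p.2 ω) 2 (by
      intro a _
      by_cases hne : ((P.filter fun p => act p.1 p.2 ω).filter fun p => r p = a).Nonempty
      · obtain ⟨p0, hp0⟩ := hne
        have h5 : ((P.filter fun p => act p.1 p.2 ω).filter fun p => r p = a) ⊆ {p0, (p0.1, N p0.1 p0.2)} := by
          intro p hp1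
          have h6 : r p0 = r p := by rw [(mem_filter.1 hp0).2, (mem_filter.1 hp1).2]
          have h7 : NodeRel N p0 p := by
            have e1 := hr p0
            have e2 := hr p
            rw [h6] at e1
            exact (nodeRel_equiv N hN).trans ((nodeRel_equiv N hN).symm e1) e2
          rw [mem_insert, mem_singleton]
          rcases h7 with ⟨h8, h9 | h9⟩
          · exact Or.inl (Prod.ext h8.symm h9)
          · exact Or.inr (Prod.ext h8.symm h9)
        exact (card_le_card h5).trans card_le_two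
      · rw [not_nonempty_iff_eq_empty] at hne
        rw [hne, card_empty]
        exact Nat.zero_le _)
    refine h4.trans (Nat.mul_le_mul_left 2 (card_le_card ?_))
    intro a ha
    obtain ⟨p, hp1, rfl⟩ := mem_image.1 ha
    rw [mem_filter] at hp1 ⊢
    exact ⟨mem_image_of_mem r hp1.1, (hact' _ _ ω (hr p)).2 hp1.2⟩
  have h5 : ((E.filter fun y => ∃ α ∈ Lb y, act α y ω).card : ℝ) ≤
      2 * ((J.filter fun p => act p.1 p.2 ω).card : ℝ) := by exact_mod_cast h1.trans h3
  linarith

end Pool.Agent.H12.LN
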